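import Pool.Agent.Q197.CI.AsN
import Pool.Agent.Q197.CI.FixP

/-!
# Random sets of small information relative to Cramér's model: almost sure laws for sequential tests
-/

set_option autoImplicit false

namespace Pool.Agent.Q253.IT

open Finset Filter MeasureTheory Pool.Agent.Q120.ET Pool.Agent.Q120.MF Pool.Agent.Q197.CI
open scoped Topology

variable {Ω : Type*} [MeasurableSpace Ω] {μ : Measure Ω} [IsProbabilityMeasure μ] {A : Ω → Set ℕ}

/-- The probability of an event of the model as a sum. -/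
theorem pr_eq_sum (x : ℕ) (Q : Set ℕ → Prop) [DecidablePred (fun T : Finset ℕ => Q (T : Set ℕ))] :
    Pr 3 ∅ x Q = ∑ T ∈ (Ico 3 x).powerset.filter (fun T : Finset ℕ => Q (T : Set ℕ)), cramerOn (Ico 3 x) T := by
  classical
  rw [pr_def, Ex, sum_filter]
  refine sum_congr rfl (fun T _ => ?_)
  rw [empty_union]
  split_ifs
  · rw [mul_one]
  · rw [mul_zero]

/-- An event which is improbable in the model. -/
theorem info_event (hA : IsRandomSet A) {x : ℕ} {Q : Set ℕ → Prop} (hQ : Dep x Q) {u d q : ℝ} (hu : 0 < u)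
    (hd : relEntropy μ A (Ico 3 x) ≤ d) (hq : Pr 3 ∅ x Q ≤ q) :
    μ.real {ω | Q (A ω)} ≤ (d + Real.exp u * q) / u := by
  classical
  have h1 : {ω | Q (A ω)} = {ω | Q ((tr A (Ico 3 x) ω : Finset ℕ) : Set ℕ)} := by
    ext ω
    exact dep_iff hQ ω
  rw [h1]
  rw [pr_eq_sum] at hq
  exact event_bound hA (fun n hn => (mem_Ico.1 hn).1) (fun T : Finset ℕ => Q (T : Set ℕ)) hu hd hq

/-- **Borel-Cantelli for random sets of small information.** -/
theorem info_bc (hA : IsRandomSet A) {θ Λ γ : ℝ} (hθ : 0 ≤ θ) (hΛ : 0 < Λ) (hc : θ * Λ < γ)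
    (hent : ∀ᶠ x : ℕ in atTop, relEntropy μ A (Ico 3 x) ≤ (x : ℝ) ^ θ)
    {x : ℕ → ℕ} (hx : ∀ᶠ n : ℕ in atTop, 3 ≤ x n ∧ (x n : ℝ) ≤ (n : ℝ) ^ Λ) {E : ℕ → Set ℕ → Prop}
    (hdep : ∀ᶠ n : ℕ in atTop, Dep (x n) (E n)) {e : ℝ} (he : 0 < e)
    (hp : ∀ᶠ n : ℕ in atTop, Pr 3 ∅ (x n) (E n) ≤ Real.exp (-(e * (n : ℝ) ^ γ))) :
    ∀ᵐ ω ∂μ, ∀ᶠ n : ℕ in atTop, ¬ E n (A ω) := by
  have hγ : 0 < γ := lt_of_le_of_lt (mul_nonneg hθ hΛ.le) hc
  obtain ⟨n0, hn0⟩ := eventually_atTop.1 ((hx.and hdep).and hp)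
  obtain ⟨X, hX⟩ : ∃ X : ℕ → ℕ, X = fun j => ⌈((2 : ℝ) ^ (j + 1)) ^ Λ⌉₊ := ⟨_, rfl⟩
  have hpow : Tendsto (fun j : ℕ => 2 ^ j) atTop atTop := tendsto_pow_atTop_atTop_of_one_lt (by norm_num)
  have hpowR : Tendsto (fun j : ℕ => (2 : ℝ) ^ j) atTop atTop := tendsto_pow_atTop_atTop_of_one_lt (by norm_num)
  have hXtop : Tendsto X atTop atTop := by
    rw [hX]
    refine tendsto_nat_ceil_atTop.comp ?_
    exact (tendsto_rpow_atTop hΛ).comp ((tendsto_add_atTop_iff_nat 1).2 hpowR)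
  have hbc := bc (μ := μ) (E := fun j => {ω | ∃ n ∈ Ico (2 ^ j) (2 ^ (j + 1)), E n (A ω)})
    (f := fun j : ℕ => (((2 * 2 ^ Λ) ^ θ + 1) * (2 / e)) * ((2 : ℝ) ^ (θ * Λ - γ)) ^ j) ?_ ?_
  · filter_upwards [hbc] with ω h1
    obtain ⟨j0, hj0⟩ := eventually_atTop.1 h1
    filter_upwards [eventually_ge_atTop (2 ^ j0)] with n hn hE
    have hn1 : n ≠ 0 := by
      have := Nat.one_le_two_pow (n := j0)
      omega
    have h2 : j0 ≤ Nat.log 2 n := (Nat.le_log_iff_pow_le (by norm_num) hn1).2 hn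
    refine hj0 _ h2 ⟨n, mem_Ico.2 ⟨Nat.pow_log_le_self 2 hn1, Nat.lt_pow_succ_log_self (by norm_num) n⟩, hE⟩
  · have hexp : ∀ᶠ j : ℕ in atTop, (2 : ℝ) ^ j * Real.exp (-(e / 2 * ((2 : ℝ) ^ j) ^ γ)) ≤ 1 := by
      have h1 : Tendsto (fun y : ℝ => y ^ (1 / γ) * Real.exp (-(e / 2) * y)) atTop (𝓝 0) :=
        tendsto_rpow_mul_exp_neg_mul_atTop_nhds_zero (1 / γ) (e / 2) (by positivity)
      have h2 := h1.comp ((tendsto_rpow_atTop hγ).comp hpowR)
      filter_upwards [h2.eventually_le_const (show (0 : ℝ) < 1 by norm_num)] with j hj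
      simp only [Function.comp_apply] at hj
      rw [← Real.rpow_mul (by positivity), mul_one_div_cancel hγ.ne', Real.rpow_one] at hj
      rw [← neg_mul]
      exact hj
    filter_upwards [hpow.eventually_ge_atTop n0, hXtop.eventually hent, hexp] with j h1 h2 h3
    have hblk : ∀ n ∈ Ico (2 ^ j) (2 ^ (j + 1)), 3 ≤ x n ∧ x n ≤ X j ∧ Dep (x n) (E n) ∧
        Pr 3 ∅ (x n) (E n) ≤ Real.exp (-(e * ((2 : ℝ) ^ j) ^ γ)) := by
      intro n hn
      rw [mem_Ico] at hn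
      obtain ⟨⟨⟨h4, h5⟩, h6⟩, h7⟩ := hn0 n (h1.trans hn.1)
      refine ⟨h4, ?_, h6, h7.trans (Real.exp_le_exp.2 ?_)⟩
      · have h8 : (n : ℝ) ≤ (2 : ℝ) ^ (j + 1) := by exact_mod_cast hn.2.le
        have h9 : (x n : ℝ) ≤ ((2 : ℝ) ^ (j + 1)) ^ Λ := h5.trans (Real.rpow_le_rpow (Nat.cast_nonneg n) h8 hΛ.le)
        rw [hX]
        exact_mod_cast h9.trans (Nat.le_ceil _)
      · have h8 : ((2 : ℝ) ^ j) ≤ n := by exact_mod_cast hn.1
        have h9 : ((2 : ℝ) ^ j) ^ γ ≤ (n : ℝ) ^ γ := Real.rpow_le_rpow (by positivity) h8 hγ.le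
        have := mul_le_mul_of_nonneg_left h9 he.le
        linarith
    have hdepB : Dep (X j) (fun S => ∃ n ∈ Ico (2 ^ j) (2 ^ (j + 1)), E n S) := by
      intro S S' hS
      apply propext
      constructor
      · rintro ⟨n, hn, h4⟩
        have h5 : E n S = E n S' := dep_mono (hblk n hn).2.2.1 (hblk n hn).2.1 S S' hS
        exact ⟨n, hn, h5 ▸ h4⟩
      · rintro ⟨n, hn, h4⟩
        have h5 : E n S = E n S' := dep_mono (hblk n hn).2.2.1 (hblk n hn).2.1 S S' hS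
        exact ⟨n, hn, h5 ▸ h4⟩
    have hprB : Pr 3 ∅ (X j) (fun S => ∃ n ∈ Ico (2 ^ j) (2 ^ (j + 1)), E n S) ≤
        (2 : ℝ) ^ j * Real.exp (-(e * ((2 : ℝ) ^ j) ^ γ)) := by
      refine (pr_exists_le le_rfl _ _).trans ?_
      have h4 : ∀ n ∈ Ico (2 ^ j) (2 ^ (j + 1)), Pr 3 ∅ (X j) (E n) ≤ Real.exp (-(e * ((2 : ℝ) ^ j) ^ γ)) := by
        intro n hn
        obtain ⟨h5, h6, h7, h8⟩ := hblk n hn
        rw [pr_horizon h5 h6 h7]
        exact h8
      refine (sum_le_sum h4).trans (le_of_eq ?_)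
      rw [sum_const, Nat.card_Ico, nsmul_eq_mul]
      congr 1
      rw [pow_succ, Nat.mul_comm, two_mul, Nat.add_sub_cancel]
      push_cast
      rfl
    obtain ⟨t, ht⟩ : ∃ t : ℝ, t = (2 : ℝ) ^ j := ⟨_, rfl⟩
    have ht1 : 1 ≤ t := by rw [ht]; exact one_le_pow₀ (by norm_num)
    have ht0 : 0 < t := by linarith
    have htγ : 0 < t ^ γ := Real.rpow_pos_of_pos ht0 γ
    rw [← ht] at hprB h3
    have h4 := info_event (μ := μ) hA hdepB (u := e / 2 * t ^ γ) (by positivity) h2 hprB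
    refine h4.trans ?_
    have h5 : Real.exp (e / 2 * t ^ γ) * (t * Real.exp (-(e * t ^ γ))) ≤ 1 := by
      have h6 : Real.exp (e / 2 * t ^ γ) * (t * Real.exp (-(e * t ^ γ))) = t * Real.exp (-(e / 2 * t ^ γ)) := by
        rw [mul_left_comm, ← Real.exp_add]
        congr 2
        ring
      rw [h6]
      exact h3
    have h6 : ((X j : ℕ) : ℝ) ^ θ ≤ (2 * 2 ^ Λ) ^ θ * t ^ (θ * Λ) := by
      have h7 : ((2 : ℝ) ^ (j + 1)) ^ Λ = 2 ^ Λ * t ^ Λ := by
        rw [pow_succ, mul_comm, Real.mul_rpow (by norm_num) (by positivity), ht]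
      have h8 : (1 : ℝ) ≤ ((2 : ℝ) ^ (j + 1)) ^ Λ := Real.one_le_rpow (one_le_pow₀ (by norm_num)) hΛ.le
      have h9 : ((X j : ℕ) : ℝ) ≤ (2 * 2 ^ Λ) * t ^ Λ := by
        rw [hX]
        have := (Nat.ceil_lt_add_one (show 0 ≤ ((2 : ℝ) ^ (j + 1)) ^ Λ by positivity)).le
        rw [h7] at this h8
        simp only
        rw [h7]
        linarith
      calc ((X j : ℕ) : ℝ) ^ θ ≤ ((2 * 2 ^ Λ) * t ^ Λ) ^ θ := Real.rpow_le_rpow (Nat.cast_nonneg _) h9 hθ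
        _ = (2 * 2 ^ Λ) ^ θ * t ^ (θ * Λ) := by
          rw [Real.mul_rpow (by positivity) (by positivity), ← Real.rpow_mul ht0.le, mul_comm Λ θ]
    have h7 : (1 : ℝ) ≤ t ^ (θ * Λ) := Real.one_le_rpow ht1 (mul_nonneg hθ hΛ.le)
    have h8 : ((2 : ℝ) ^ (θ * Λ - γ)) ^ j = t ^ (θ * Λ) / t ^ γ := by
      rw [← Real.rpow_sub ht0, ht, ← Real.rpow_natCast, ← Real.rpow_natCast, ← Real.rpow_mul (by norm_num),
        ← Real.rpow_mul (by norm_num), mul_comm]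
    rw [h8, div_le_iff₀ (by positivity)]
    have h9 : ((2 * 2 ^ Λ) ^ θ + 1) * (2 / e) * (t ^ (θ * Λ) / t ^ γ) * (e / 2 * t ^ γ) =
        ((2 * 2 ^ Λ) ^ θ + 1) * t ^ (θ * Λ) := by
      field_simp
    rw [h9]
    linarith
  · refine Summable.mul_left _ (summable_geometric_of_lt_one (by positivity) ?_)
    exact Real.rpow_lt_one_of_one_lt_of_neg (by norm_num) (by linarith)

/-- **Chernoff's bounds give the law of large numbers for all random sets of small information.** -/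
theorem info_as (hA : IsRandomSet A) {θ Λ γ : ℝ} (hθ : 0 ≤ θ) (hΛ : 0 < Λ) (hc : θ * Λ < γ)
    (hent : ∀ᶠ x : ℕ in atTop, relEntropy μ A (Ico 3 x) ≤ (x : ℝ) ^ θ)
    (H : ℕ → ℕ → Set ℕ → Prop) (hH : ∀ n a, 3 ≤ a → Dep a (H n a)) (x : ℕ → ℕ)
    (hx : ∀ᶠ n : ℕ in atTop, 3 ≤ x n ∧ (x n : ℝ) ≤ (n : ℝ) ^ Λ)
    (F : ℕ → ℝ) (hF : ∀ᶠ n : ℕ in atTop, (n : ℝ) ^ γ ≤ F n) {κ : ℝ} (hκ : 0 < κ)
    (hlam : ∀ᵐ ω ∂μ, Tendsto (fun n => lam 3 (x n) (H n) (A ω) / F n) atTop (𝓝 κ)) :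
    ∀ᵐ ω ∂μ, Tendsto (fun n => (hits 3 (x n) (H n) (A ω) : ℝ) / F n) atTop (𝓝 κ) := by
  have hT0 : ∀ j ∈ (∅ : Finset ℕ), j < 3 := by simp
  have hFpos : ∀ᶠ n : ℕ in atTop, 0 < F n := by
    filter_upwards [hF, eventually_ge_atTop 1] with n h1 h2
    have hn0 : (0 : ℝ) < n := by exact_mod_cast h2
    exact lt_of_lt_of_le (Real.rpow_pos_of_pos hn0 γ) h1
  have hup : ∀ᵐ ω ∂μ, ∀ k : ℕ, ∀ᶠ n in atTop, ¬ (lam 3 (x n) (H n) (A ω) ≤ (1 + 1 / ((k : ℝ) + 1)) * κ * F n ∧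
      (1 + 1 / ((k : ℝ) + 1)) * ((1 + 1 / ((k : ℝ) + 1)) * κ * F n) ≤ hits 3 (x n) (H n) (A ω)) := by
    rw [ae_all_iff]
    intro k
    obtain ⟨δ, hδ⟩ : ∃ δ : ℝ, δ = 1 / ((k : ℝ) + 1) := ⟨_, rfl⟩
    have hδ0 : 0 < δ := by rw [hδ]; positivity
    have hδ1 : δ ≤ 1 := by
      rw [hδ, div_le_one (by positivity)]
      have : (0 : ℝ) ≤ k := Nat.cast_nonneg _
      linarith
    rw [← hδ]
    refine info_bc hA hθ hΛ hc hent hx (E := fun n S => lam 3 (x n) (H n) S ≤ (1 + δ) * κ * F n ∧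
      (1 + δ) * ((1 + δ) * κ * F n) ≤ hits 3 (x n) (H n) S) (Eventually.of_forall fun n => ?_)
      (e := δ ^ 2 * ((1 + δ) * κ) / 4) (by positivity) ?_
    · intro S S' hS
      have e1 : lam 3 (x n) (H n) S = lam 3 (x n) (H n) S' := dep_lam (hH n) S S' hS
      have e2 : hits 3 (x n) (H n) S = hits 3 (x n) (H n) S' := dep_hits (hH n) S S' hS
      simp only [e1, e2]
    · filter_upwards [hF, hFpos] with n h1 h2
      refine (tail_up le_rfl hT0 (H n) (hH n) (x n) hδ0.le (by linarith) (mul_nonneg (by positivity) h2.le) le_rfl).trans ?_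
      refine Real.exp_le_exp.2 ?_
      have h3 := mul_le_mul_of_nonneg_left h1 (show 0 ≤ δ ^ 2 * ((1 + δ) * κ) / 4 by positivity)
      have h4 : δ ^ 2 * ((1 + δ) * κ * F n) / 4 = δ ^ 2 * ((1 + δ) * κ) / 4 * F n := by ring
      rw [h4]
      linarith
  have hlow : ∀ᵐ ω ∂μ, ∀ k : ℕ, ∀ᶠ n in atTop, ¬ ((1 - 1 / ((k : ℝ) + 2)) * κ * F n ≤ lam 3 (x n) (H n) (A ω) ∧
      (hits 3 (x n) (H n) (A ω) : ℝ) ≤ (1 - 1 / ((k : ℝ) + 2)) * ((1 - 1 / ((k : ℝ) + 2)) * κ * F n)) := by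
    rw [ae_all_iff]
    intro k
    obtain ⟨δ, hδ⟩ : ∃ δ : ℝ, δ = 1 / ((k : ℝ) + 2) := ⟨_, rfl⟩
    have hδ0 : 0 < δ := by rw [hδ]; positivity
    have hδ1 : δ ≤ 1 / 2 := by
      rw [hδ]
      refine one_div_le_one_div_of_le (by norm_num) ?_
      have : (0 : ℝ) ≤ k := Nat.cast_nonneg _
      linarith
    have hδ2 : 0 < 1 - δ := by linarith
    rw [← hδ]
    refine info_bc hA hθ hΛ hc hent hx (E := fun n S => (1 - δ) * κ * F n ≤ lam 3 (x n) (H n) S ∧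
      (hits 3 (x n) (H n) S : ℝ) ≤ (1 - δ) * ((1 - δ) * κ * F n)) (Eventually.of_forall fun n => ?_)
      (e := δ ^ 2 * ((1 - δ) * κ) / 4) (by positivity) ?_
    · intro S S' hS
      have e1 : lam 3 (x n) (H n) S = lam 3 (x n) (H n) S' := dep_lam (hH n) S S' hS
      have e2 : hits 3 (x n) (H n) S = hits 3 (x n) (H n) S' := dep_hits (hH n) S S' hS
      simp only [e1, e2]
    · filter_upwards [hF, hFpos] with n h1 h2
      refine (tail_low le_rfl hT0 (H n) (hH n) (x n) hδ0.le (by linarith) (mul_nonneg (by positivity) h2.le) le_rfl).trans ?_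
      refine Real.exp_le_exp.2 ?_
      have h3 := mul_le_mul_of_nonneg_left h1 (show 0 ≤ δ ^ 2 * ((1 - δ) * κ) / 4 by positivity)
      have h4 : δ ^ 2 * ((1 - δ) * κ * F n) / 4 = δ ^ 2 * ((1 - δ) * κ) / 4 * F n := by ring
      rw [h4]
      linarith
  filter_upwards [hlam, hup, hlow] with ω h1 h2 h3
  have hk1 : Tendsto (fun k : ℕ => 1 / ((k : ℝ) + 1)) atTop (𝓝 0) := tendsto_one_div_add_atTop_nhds_zero_nat
  have hk2 : Tendsto (fun k : ℕ => 1 / ((k : ℝ) + 2)) atTop (𝓝 0) := by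
    refine tendsto_const_nhds.div_atTop ?_
    exact tendsto_atTop_add_const_right _ _ tendsto_natCast_atTop_atTop
  have hu : Tendsto (fun k : ℕ => (1 + 1 / ((k : ℝ) + 1)) * ((1 + 1 / ((k : ℝ) + 1)) * κ)) atTop (𝓝 ((1 + 0) * ((1 + 0) * κ))) :=
    (hk1.const_add 1).mul ((hk1.const_add 1).mul_const κ)
  have hl' : Tendsto (fun k : ℕ => (1 - 1 / ((k : ℝ) + 2)) * ((1 - 1 / ((k : ℝ) + 2)) * κ)) atTop (𝓝 ((1 - 0) * ((1 - 0) * κ))) :=
    (hk2.const_sub 1).mul ((hk2.const_sub 1).mul_const κ)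
  rw [add_zero, one_mul, one_mul] at hu
  rw [sub_zero, one_mul, one_mul] at hl'
  rw [tendsto_order]
  constructor
  · intro a ha
    obtain ⟨k, hk⟩ := (hl'.eventually_const_lt ha).exists
    have hδ0 : 0 < 1 / ((k : ℝ) + 2) := by positivity
    filter_upwards [h3 k, h1.eventually_const_lt (show (1 - 1 / ((k : ℝ) + 2)) * κ < κ by nlinarith), hFpos]
      with n h4 h5 h6
    rw [lt_div_iff₀ h6] at h5 ⊢
    by_contra hcon
    push Not at hcon
    refine h4 ⟨h5.le, hcon.trans ?_⟩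
    rw [← mul_assoc, ← mul_assoc]
    rw [← mul_assoc] at hk
    exact mul_le_mul_of_nonneg_right hk.le h6.le
  · intro a ha
    obtain ⟨k, hk⟩ := (hu.eventually_lt_const ha).exists
    have hδ0 : 0 < 1 / ((k : ℝ) + 1) := by positivity
    filter_upwards [h2 k, h1.eventually_lt_const (show κ < (1 + 1 / ((k : ℝ) + 1)) * κ by nlinarith), hFpos]
      with n h4 h5 h6
    rw [div_lt_iff₀ h6] at h5 ⊢
    by_contra hcon
    push Not at hcon
    refine h4 ⟨h5.le, le_trans ?_ hcon⟩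
    rw [← mul_assoc, ← mul_assoc]
    rw [← mul_assoc] at hk
    exact mul_le_mul_of_nonneg_right hk.le h6.le

/-- The number of elements. -/
theorem info_ct_law (hA : IsRandomSet A) {θ : ℝ} (hθ : 0 ≤ θ) (hθ1 : θ < 1)
    (hent : ∀ᶠ x : ℕ in atTop, relEntropy μ A (Ico 3 x) ≤ (x : ℝ) ^ θ) :
    ∀ᵐ ω ∂μ, Tendsto (fun x : ℕ => (ct (A ω) x : ℝ) * Real.log x / x) atTop (𝓝 1) := by
  have h1 := info_as hA hθ (Λ := 1) one_pos (γ := (1 + θ) / 2) (by linarith) hent (fun _ _ _ => True)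
    (fun _ _ _ => dep_const True) (fun x => x) ?_ (fun x : ℕ => (x : ℝ) / Real.log x) ?_ one_pos ?_
  · filter_upwards [h1] with ω h2
    refine h2.congr (fun x => ?_)
    rw [hits_true]
    field_simp
  · filter_upwards [eventually_ge_atTop 3] with n hn
    exact ⟨hn, by rw [Real.rpow_one]⟩
  · filter_upwards [log_le_rpow (η := 1) one_pos (show (0 : ℝ) < (1 - θ) / 2 by linarith), hl.eventually_gt_atTop 0,
      eventually_ge_atTop 1] with n h2 h3 h4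
    have hn0 : (0 : ℝ) < n := by exact_mod_cast h4
    rw [one_mul] at h2
    rw [le_div_iff₀ h3]
    calc (n : ℝ) ^ ((1 + θ) / 2) * Real.log n ≤ (n : ℝ) ^ ((1 + θ) / 2) * (n : ℝ) ^ ((1 - θ) / 2) := by gcongr
      _ = n := by
        rw [← Real.rpow_add hn0]
        nth_rw 2 [← Real.rpow_one (n : ℝ)]
        congr 1
        ring
  · refine Eventually.of_forall (fun ω => ?_)
    simp only [lam_true]
    exact tendsto_Lf

/-- The elements: deterministic consequences of the law for their number. -/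
theorem el_law {S : Set ℕ} (h : Tendsto (fun x : ℕ => (ct S x : ℝ) * Real.log x / x) atTop (𝓝 1)) :
    S.Infinite ∧ Tendsto (fun m : ℕ => Real.log (el S m) / Real.log m) atTop (𝓝 1) := by
  have h2 := (h.comp (tendsto_add_atTop_nat 1)).div log_succ_ratio one_ne_zero
  have h3 : Tendsto (fun n : ℕ => ((n + 1 : ℕ) : ℝ) / n) atTop (𝓝 1) := by
    have h4 := (tendsto_natCast_div_add_atTop (1 : ℝ)).inv₀ one_ne_zero
    rw [inv_one] at h4
    refine h4.congr (fun n => ?_)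
    rw [inv_div]
    push_cast
    rfl
  have h4 : Tendsto (fun h : ℕ => (ct S (h + 1) : ℝ) * Real.log h / h) atTop (𝓝 1) := by
    have h5 := h2.mul h3
    rw [div_one, one_mul] at h5
    refine h5.congr' ?_
    filter_upwards [hl.eventually_gt_atTop 0, eventually_ge_atTop 1] with n h6 h7
    simp only [Pi.div_apply, Function.comp_apply]
    have hn0 : (0 : ℝ) < n := by exact_mod_cast h7
    have hl1 : 0 < Real.log ((n + 1 : ℕ) : ℝ) := Real.log_pos (by exact_mod_cast (show 1 < n + 1 by omega))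
    have hn1 : (0 : ℝ) < ((n + 1 : ℕ) : ℝ) := by positivity
    field_simp
  obtain ⟨h5, h6⟩ := ct_top h4
  have hinf : S.Infinite := by
    intro hfin
    obtain ⟨M, hM⟩ := hfin.bddAbove
    have h7 : ∀ x, ct S x ≤ M + 1 := by
      intro x
      classical
      unfold ct
      refine (card_le_card (t := range (M + 1)) (fun j hj => ?_)).trans (by rw [card_range])
      rw [mem_filter] at hj
      rw [mem_range]
      have := hM hj.2
      omega
    obtain ⟨x, hx⟩ := (h5.eventually_gt_atTop (M + 1)).exists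
    have := h7 (x + 1)
    omega
  refine ⟨hinf, ?_⟩
  have h7 : Tendsto (el S) atTop atTop := by
    refine tendsto_atTop_mono' _ ?_ tendsto_id
    filter_upwards [eventually_ge_atTop 1] with m hm
    have := el_ge hinf hm
    simp only [id]
    omega
  have h8 := (h6.comp h7).inv₀ one_ne_zero
  rw [inv_one] at h8
  refine h8.congr' ?_
  filter_upwards [eventually_ge_atTop 1] with m hm
  simp only [Function.comp_apply]
  have h9 := isEl_el hinf hm
  rw [ct_succ_of_mem h9.1 h9.2.1, h9.2.2, inv_div]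

end Pool.Agent.Q253.IT
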