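import Pool.Agent.Q253.IT.Del

/-!
# Tests at the places `p_(k^d n) + s`, `k ≤ C n^β`: the law for all random sets of small information
-/

set_option autoImplicit false

namespace Pool.Agent.Q253.IT

open Finset Filter MeasureTheory Pool.Agent.Q120.ET Pool.Agent.Q120.MF Pool.Agent.Q197.CI
open scoped Topology

/-- An upper bound for the tested places. -/
theorem place_le {S : Set ℕ} (hS : S.Infinite) (hel : Tendsto (fun m : ℕ => Real.log (el S m) / Real.log m) atTop (𝓝 1))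
    (s d : ℕ) {C β δ : ℝ} (hC : 0 < C) (hβ : 0 < β) (hδ : 0 < δ) (hδ1 : δ ≤ 1) :
    ∀ᶠ n : ℕ in atTop, ∀ k : ℕ, 1 ≤ k → (k : ℝ) ≤ C * (n : ℝ) ^ β →
      Real.log ((el S (k ^ d * n) + s : ℕ) : ℝ) ≤ (1 + δ) * (1 + d * β) * Real.log n := by
  have h1 := hel.eventually_lt_const (show (1 : ℝ) < 1 + δ / 4 by linarith)
  obtain ⟨m0, hm0⟩ := eventually_atTop.1 h1
  filter_upwards [eventually_ge_atTop m0, eventually_ge_atTop 2, hl.eventually_ge_atTop (4 / δ * (d * |Real.log C|)),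
    hl.eventually_ge_atTop (4 / δ * Real.log (1 + s))] with n h2 h3 h4 h5 k hk1 hk2
  have hn0 : (0 : ℝ) < n := by exact_mod_cast (show 0 < n by omega)
  have hk0 : (0 : ℝ) < k := by exact_mod_cast hk1
  have hL : 0 < Real.log (n : ℝ) := Real.log_pos (by exact_mod_cast (show 1 < n by omega))
  obtain ⟨m, hm⟩ : ∃ m : ℕ, m = k ^ d * n := ⟨_, rfl⟩
  have hmn : n ≤ m := by
    rw [hm]
    exact Nat.le_mul_of_pos_left n (Nat.pow_pos (by omega))
  have hlogm : Real.log (m : ℝ) = d * Real.log k + Real.log n := by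
    rw [hm]
    push_cast
    rw [Real.log_mul (by positivity) hn0.ne', Real.log_pow]
  have hm2 : 0 < Real.log (m : ℝ) := Real.log_pos (by exact_mod_cast (show 1 < m by omega))
  have h6 := hm0 m (h2.trans hmn)
  rw [div_lt_iff₀ hm2] at h6
  have h7 : Real.log (k : ℝ) ≤ |Real.log C| + β * Real.log n := by
    have h8 := Real.log_le_log hk0 hk2
    rw [Real.log_mul hC.ne' (by positivity), Real.log_rpow hn0] at h8
    linarith [le_abs_self (Real.log C)]
  have hd0 : (0 : ℝ) ≤ d := Nat.cast_nonneg d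
  have h9 : Real.log (m : ℝ) ≤ (1 + d * β + δ / 4) * Real.log n := by
    rw [hlogm]
    have h10 := mul_le_mul_of_nonneg_left h7 hd0
    have h11 : d * |Real.log C| ≤ δ / 4 * Real.log n := by
      rw [div_mul_eq_mul_div, div_le_iff₀ hδ] at h4
      linarith
    nlinarith
  have hel1 : 1 ≤ el S m := by
    have := el_ge hS (show 1 ≤ m by omega)
    omega
  have hel0 : (0 : ℝ) < el S m := by exact_mod_cast hel1
  have h12 : Real.log ((el S m + s : ℕ) : ℝ) ≤ Real.log (el S m) + Real.log (1 + s) := by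
    have hs0 : (0 : ℝ) ≤ s := Nat.cast_nonneg s
    rw [← Real.log_mul hel0.ne' (by positivity)]
    refine Real.log_le_log (by push_cast; positivity) ?_
    push_cast
    have : (1 : ℝ) ≤ el S m := by exact_mod_cast hel1
    nlinarith
  have h13 : Real.log (1 + (s : ℝ)) ≤ δ / 4 * Real.log n := by
    rw [div_mul_eq_mul_div, div_le_iff₀ hδ] at h5
    linarith
  rw [← hm]
  have h14 : (1 + δ / 4) * Real.log (m : ℝ) ≤ (1 + δ / 4) * ((1 + d * β + δ / 4) * Real.log n) :=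
    mul_le_mul_of_nonneg_left h9 (by linarith)
  have h15 : (1 + δ / 4) * (1 + d * β + δ / 4) + δ / 4 ≤ (1 + δ) * (1 + d * β) := by
    have : 0 ≤ d * β := by positivity
    nlinarith
  have h16 := mul_le_mul_of_nonneg_right h15 hL.le
  nlinarith

/-- The sum of the probabilities. -/
theorem sum_pb_place {S : Set ℕ} (hS : S.Infinite)
    (hel : Tendsto (fun m : ℕ => Real.log (el S m) / Real.log m) atTop (𝓝 1))
    (s d : ℕ) {C β : ℝ} (hC : 0 < C) (hβ : 0 < β) :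
    Tendsto (fun n : ℕ => (∑ k ∈ Icc 1 ⌊C * (n : ℝ) ^ β⌋₊, pb (el S (k ^ d * n) + s)) / ((n : ℝ) ^ β / Real.log n)) atTop
      (𝓝 (C / (1 + d * β))) := by
  have hd0 : (0 : ℝ) ≤ d := Nat.cast_nonneg d
  have hdβ : 0 < 1 + d * β := by positivity
  have hk1 : Tendsto (fun j : ℕ => 1 / ((j : ℝ) + 1)) atTop (𝓝 0) := tendsto_one_div_add_atTop_nhds_zero_nat
  have hδ : ∀ j : ℕ, 0 < 1 / ((j : ℝ) + 1) ∧ 1 / ((j : ℝ) + 1) ≤ 1 := by
    intro j
    refine ⟨by positivity, ?_⟩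
    rw [div_le_one (by positivity)]
    have : (0 : ℝ) ≤ j := Nat.cast_nonneg _
    linarith
  have hnβ : Tendsto (fun n : ℕ => (n : ℝ) ^ β) atTop atTop := (tendsto_rpow_atTop hβ).comp tendsto_natCast_atTop_atTop
  have hneg : ∀ r : ℝ, 0 < r → Tendsto (fun n : ℕ => (n : ℝ) ^ (-r)) atTop (𝓝 0) := fun r hr =>
    (tendsto_rpow_neg_atTop hr).comp tendsto_natCast_atTop_atTop
  refine squeeze_family
    (fun j n => (C - (n : ℝ) ^ (-β)) * (1 / ((1 + 1 / ((j : ℝ) + 1)) * (1 + d * β))))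
    (fun j n => (n : ℝ) ^ (-(β * (1 / ((j : ℝ) + 1)))) + C * (1 / (1 + d * (β - β * (1 / ((j : ℝ) + 1))))))
    (fun j => (C - 0) * (1 / ((1 + 1 / ((j : ℝ) + 1)) * (1 + d * β))))
    (fun j => 0 + C * (1 / (1 + d * (β - β * (1 / ((j : ℝ) + 1)))))) ?_ ?_ ?_ ?_ ?_ ?_
  · have h1 : Tendsto (fun j : ℕ => (C - 0) * (1 / ((1 + 1 / ((j : ℝ) + 1)) * (1 + d * β)))) atTop
        (𝓝 ((C - 0) * (1 / ((1 + 0) * (1 + d * β))))) := by
      refine Tendsto.const_mul _ (Tendsto.div tendsto_const_nhds ((hk1.const_add 1).mul_const _) ?_)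
      rw [add_zero, one_mul]
      exact hdβ.ne'
    rw [sub_zero, add_zero, one_mul, mul_one_div] at h1
    simpa only [sub_zero] using h1
  · have h1 : Tendsto (fun j : ℕ => 0 + C * (1 / (1 + d * (β - β * (1 / ((j : ℝ) + 1)))))) atTop
        (𝓝 (0 + C * (1 / (1 + d * (β - β * 0))))) := by
      refine Tendsto.const_add _ (Tendsto.const_mul _ (Tendsto.div tendsto_const_nhds
        (((hk1.const_mul β).const_sub β).const_mul (d : ℝ) |>.const_add 1) ?_))
      rw [mul_zero, sub_zero]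
      exact hdβ.ne'
    rw [mul_zero, sub_zero, zero_add, mul_one_div] at h1
    simpa only [zero_add] using h1
  · intro j
    exact ((hneg β hβ).const_sub C).mul_const _
  · intro j
    exact (hneg _ (mul_pos hβ (hδ j).1)).add_const _
  · intro j
    obtain ⟨δ, hδe⟩ : ∃ δ : ℝ, δ = 1 / ((j : ℝ) + 1) := ⟨_, rfl⟩
    rw [← hδe]
    have hδ0 : 0 < δ := by rw [hδe]; exact (hδ j).1
    have hδ1 : δ ≤ 1 := by rw [hδe]; exact (hδ j).2
    filter_upwards [place_le hS hel s d hC hβ hδ0 hδ1, eventually_ge_atTop 3] with n h1 h2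
    have hn0 : (0 : ℝ) < n := by exact_mod_cast (show 0 < n by omega)
    have hL : 0 < Real.log (n : ℝ) := Real.log_pos (by exact_mod_cast (show 1 < n by omega))
    have hB0 : 0 < (n : ℝ) ^ β := by positivity
    rw [le_div_iff₀ (by positivity)]
    have h3 : ∀ k ∈ Icc 1 ⌊C * (n : ℝ) ^ β⌋₊, 1 / ((1 + δ) * (1 + d * β) * Real.log n) ≤ pb (el S (k ^ d * n) + s) := by
      intro k hk
      rw [mem_Icc] at hk
      have hk2 : (k : ℝ) ≤ C * (n : ℝ) ^ β := (Nat.cast_le.2 hk.2).trans (Nat.floor_le (by positivity))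
      have hel3 : 3 ≤ el S (k ^ d * n) + s := by
        have h4 : 1 ≤ k ^ d * n := Nat.mul_pos (Nat.pow_pos (by omega)) (by omega)
        have := el_ge hS h4
        omega
      have h5 := h1 k hk.1 hk2
      have h6 : 0 < Real.log ((el S (k ^ d * n) + s : ℕ) : ℝ) := Real.log_pos (by exact_mod_cast (by omega))
      unfold pb
      exact one_div_le_one_div_of_le h6 h5
    have h4 := card_nsmul_le_sum _ _ _ h3
    rw [Nat.card_Icc, Nat.add_sub_cancel, nsmul_eq_mul] at h4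
    refine le_trans ?_ h4
    have h5 : C * (n : ℝ) ^ β - 1 ≤ (⌊C * (n : ℝ) ^ β⌋₊ : ℝ) := by
      have := Nat.lt_floor_add_one (C * (n : ℝ) ^ β)
      linarith
    have h6 : (C - (n : ℝ) ^ (-β)) * (1 / ((1 + δ) * (1 + d * β))) * ((n : ℝ) ^ β / Real.log n) =
        (C * (n : ℝ) ^ β - 1) * (1 / ((1 + δ) * (1 + d * β) * Real.log n)) := by
      have h7 : (n : ℝ) ^ (-β) * (n : ℝ) ^ β = 1 := by rw [← Real.rpow_add hn0]; simp
      have h8 : (C - (n : ℝ) ^ (-β)) * (n : ℝ) ^ β = C * (n : ℝ) ^ β - 1 := by rw [sub_mul, h7]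
      rw [← h8]
      field_simp
    rw [h6]
    exact mul_le_mul_of_nonneg_right h5 (by positivity)
  · intro j
    obtain ⟨δ, hδe⟩ : ∃ δ : ℝ, δ = 1 / ((j : ℝ) + 1) := ⟨_, rfl⟩
    rw [← hδe]
    have hδ0 : 0 < δ := by rw [hδe]; exact (hδ j).1
    have hδ1 : δ ≤ 1 := by rw [hδe]; exact (hδ j).2
    have hq : 0 ≤ d * (β - β * δ) := mul_nonneg hd0 (by nlinarith)
    filter_upwards [eventually_ge_atTop 3] with n h2
    have hn0 : (0 : ℝ) < n := by exact_mod_cast (show 0 < n by omega)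
    have hL : 0 < Real.log (n : ℝ) := Real.log_pos (by exact_mod_cast (show 1 < n by omega))
    have hB0 : 0 < (n : ℝ) ^ β := by positivity
    rw [div_le_iff₀ (by positivity)]
    obtain ⟨y, hy⟩ : ∃ y : ℝ, y = (n : ℝ) ^ (β - β * δ) := ⟨_, rfl⟩
    have hy0 : 0 < y := by rw [hy]; positivity
    have h3 : ∀ k ∈ Icc 1 ⌊C * (n : ℝ) ^ β⌋₊, pb (el S (k ^ d * n) + s) ≤
        (if (k : ℝ) < y then 1 / Real.log n else 0) + 1 / ((1 + d * (β - β * δ)) * Real.log n) := by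
      intro k hk
      rw [mem_Icc] at hk
      have hk0 : (0 : ℝ) < k := by exact_mod_cast hk.1
      have h4 : 1 ≤ k ^ d * n := Nat.mul_pos (Nat.pow_pos (by omega)) (by omega)
      have hel3 := el_ge hS h4
      have h5 : Real.log ((k ^ d * n : ℕ) : ℝ) ≤ Real.log ((el S (k ^ d * n) + s : ℕ) : ℝ) :=
        Real.log_le_log (by exact_mod_cast h4) (by exact_mod_cast (by omega))
      have h6 : Real.log ((k ^ d * n : ℕ) : ℝ) = d * Real.log k + Real.log n := by
        push_cast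
        rw [Real.log_mul (by positivity) hn0.ne', Real.log_pow]
      have hk1' : 0 ≤ Real.log (k : ℝ) := Real.log_natCast_nonneg k
      unfold pb
      split_ifs with h7
      · have h8 : 1 / Real.log ((el S (k ^ d * n) + s : ℕ) : ℝ) ≤ 1 / Real.log n := by
          refine one_div_le_one_div_of_le hL ?_
          rw [h6] at h5
          nlinarith
        have h9 : 0 ≤ 1 / ((1 + d * (β - β * δ)) * Real.log n) := by positivity
        linarith
      · push Not at h7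
        rw [zero_add]
        refine one_div_le_one_div_of_le (by positivity) ?_
        have h8 := Real.log_le_log hy0 h7
        rw [hy, Real.log_rpow hn0] at h8
        rw [h6] at h5
        have h9 := mul_le_mul_of_nonneg_left h8 hd0
        nlinarith
    refine (sum_le_sum h3).trans ?_
    rw [sum_add_distrib, sum_const, Nat.card_Icc, Nat.add_sub_cancel, nsmul_eq_mul, ← sum_filter, sum_const, nsmul_eq_mul]
    have h4 : ((((Icc 1 ⌊C * (n : ℝ) ^ β⌋₊).filter (fun k : ℕ => (k : ℝ) < y)).card : ℕ) : ℝ) ≤ y := by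
      have h5 : (Icc 1 ⌊C * (n : ℝ) ^ β⌋₊).filter (fun k : ℕ => (k : ℝ) < y) ⊆ Icc 1 ⌊y⌋₊ := by
        intro k hk
        rw [mem_filter, mem_Icc] at hk
        exact mem_Icc.2 ⟨hk.1.1, Nat.le_floor hk.2.le⟩
      have h6 := card_le_card h5
      rw [Nat.card_Icc, Nat.add_sub_cancel] at h6
      exact (Nat.cast_le.2 h6).trans (Nat.floor_le hy0.le)
    have h5 : (⌊C * (n : ℝ) ^ β⌋₊ : ℝ) ≤ C * (n : ℝ) ^ β := Nat.floor_le (by positivity)
    have h6 : ((n : ℝ) ^ (-(β * δ)) + C * (1 / (1 + d * (β - β * δ)))) * ((n : ℝ) ^ β / Real.log n) =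
        y * (1 / Real.log n) + C * (n : ℝ) ^ β * (1 / ((1 + d * (β - β * δ)) * Real.log n)) := by
      have h7 : (n : ℝ) ^ (-(β * δ)) * (n : ℝ) ^ β = y := by
        rw [hy, ← Real.rpow_add hn0]
        congr 1
        ring
      rw [← h7]
      have h8 : 1 + d * (β - β * δ) ≠ 0 := by positivity
      field_simp
    rw [h6]
    exact add_le_add (mul_le_mul_of_nonneg_right h4 (by positivity)) (mul_le_mul_of_nonneg_right h5 (by positivity))

/-- The place `a` is tested for the index `k`. -/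
def Pos (s d n k a : ℕ) (S : Set ℕ) : Prop := ∃ b, b < a ∧ IsEl S (k ^ d * n) b ∧ a = b + s

theorem dep_Pos (s d n k a : ℕ) : Dep a (Pos s d n k a) := by
  intro S S' hS
  unfold Pos
  apply propext
  constructor
  · rintro ⟨b, h1, h2, h3⟩
    have h4 : IsEl S (k ^ d * n) b = IsEl S' (k ^ d * n) b := dep_isEl h1 S S' hS
    exact ⟨b, h1, h4 ▸ h2, h3⟩
  · rintro ⟨b, h1, h2, h3⟩
    have h4 : IsEl S (k ^ d * n) b = IsEl S' (k ^ d * n) b := dep_isEl h1 S S' hS
    exact ⟨b, h1, h4 ▸ h2, h3⟩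

theorem pos_iff {S : Set ℕ} (hS : S.Infinite) {s d n k a : ℕ} (hs : 1 ≤ s) (hn : 1 ≤ n) (hk : 1 ≤ k) :
    Pos s d n k a S ↔ (True ∧ a = el S (k ^ d * n) + s) := by
  have h4 : 1 ≤ k ^ d * n := Nat.mul_pos (Nat.pow_pos (by omega)) (by omega)
  unfold Pos
  rw [true_and]
  constructor
  · rintro ⟨b, h1, h2, h3⟩
    rw [h3, el_eq hS h2]
  · intro h1
    exact ⟨_, by omega, isEl_el hS h4, h1⟩

theorem place_inj {S : Set ℕ} (hS : S.Infinite) {s d n k k' : ℕ} (hd : 1 ≤ d) (hn : 1 ≤ n) (hk : 1 ≤ k) (hk' : 1 ≤ k')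
    (h : el S (k ^ d * n) + s = el S (k' ^ d * n) + s) : k = k' := by
  have key : ∀ a b : ℕ, 1 ≤ a → a < b → el S (a ^ d * n) < el S (b ^ d * n) := by
    intro a b h1 h2
    refine el_lt_el hS (Nat.mul_pos (Nat.pow_pos (by omega)) (by omega)) ?_
    exact Nat.mul_lt_mul_of_pos_right (Nat.pow_lt_pow_left h2 (by omega)) (by omega)
  rcases lt_trichotomy k k' with h1 | h1 | h1
  · have := key k k' hk h1
    omega
  · exact h1
  · have := key k' k hk' h1
    omega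

variable {Ω : Type*} [MeasurableSpace Ω] {μ : Measure Ω} [IsProbabilityMeasure μ] {A : Ω → Set ℕ}

open Classical in
/-- **The law of large numbers for all random sets of small information.** -/
theorem info_place (hA : IsRandomSet A) {s d : ℕ} (hs : 1 ≤ s) (hd : 1 ≤ d) {C β θ : ℝ} (hC : 0 < C) (hβ : 0 < β)
    (hθ : 0 ≤ θ) (hθ0 : θ < β / (1 + d * β))
    (hent : ∀ᶠ x : ℕ in atTop, relEntropy μ A (Ico 3 x) ≤ (x : ℝ) ^ θ) :
    ∀ᵐ ω ∂μ, (A ω).Infinite ∧ Tendsto (fun n : ℕ => (((Icc 1 ⌊C * (n : ℝ) ^ β⌋₊).filter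
      (fun k => el (A ω) (k ^ d * n) + s ∈ A ω)).card : ℝ) * Real.log n / (n : ℝ) ^ β) atTop (𝓝 (C / (1 + d * β))) := by
  have hd0 : (0 : ℝ) < d := by exact_mod_cast hd
  have hdβ : 0 < 1 + d * β := by positivity
  have hd1 : (1 : ℝ) ≤ d := by exact_mod_cast hd
  rw [lt_div_iff₀ hdβ] at hθ0
  have hθ1 : θ < 1 := by
    by_contra hcon
    push Not at hcon
    nlinarith
  obtain ⟨ε, hε⟩ : ∃ ε : ℝ, ε = (β - θ * (1 + d * β)) / (2 * (θ + 1)) := ⟨_, rfl⟩
  have hε0 : 0 < ε := by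
    rw [hε]
    have : 0 < β - θ * (1 + d * β) := by linarith
    positivity
  have hε1 : ε * (2 * (θ + 1)) = β - θ * (1 + d * β) := by
    rw [hε]
    field_simp
  obtain ⟨Λ, hΛ⟩ : ∃ Λ : ℝ, Λ = (1 + d * β) + ε := ⟨_, rfl⟩
  have hΛ0 : 0 < Λ := by rw [hΛ]; linarith
  have hΛβ : θ * Λ < β := by
    rw [hΛ]
    nlinarith
  obtain ⟨δ, hδ⟩ : ∃ δ : ℝ, δ = min (ε / (2 * (1 + d * β))) 1 := ⟨_, rfl⟩
  have hδ0 : 0 < δ := by rw [hδ]; exact lt_min (by positivity) one_pos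
  have hδ1 : δ ≤ 1 := by rw [hδ]; exact min_le_right _ _
  have hδ2 : (1 + δ) * (1 + d * β) ≤ (1 + d * β) + ε / 2 := by
    have h1 : δ ≤ ε / (2 * (1 + d * β)) := by rw [hδ]; exact min_le_left _ _
    rw [le_div_iff₀ (by positivity)] at h1
    nlinarith
  have hct := info_ct_law hA hθ hθ1 hent
  have hx : ∀ᶠ n : ℕ in atTop, 3 ≤ ⌊(n : ℝ) ^ Λ⌋₊ ∧ (⌊(n : ℝ) ^ Λ⌋₊ : ℝ) ≤ (n : ℝ) ^ Λ := by
    have h1 : Tendsto (fun n : ℕ => (n : ℝ) ^ Λ) atTop atTop := (tendsto_rpow_atTop hΛ0).comp tendsto_natCast_atTop_atTop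
    filter_upwards [h1.eventually_ge_atTop 3] with n h2
    exact ⟨Nat.le_floor (by exact_mod_cast h2), Nat.floor_le (by linarith)⟩
  have hbelow : ∀ᵐ ω ∂μ, (A ω).Infinite ∧ ∀ᶠ n : ℕ in atTop, ∀ k, 1 ≤ k → k ≤ ⌊C * (n : ℝ) ^ β⌋₊ → True →
      3 ≤ el (A ω) (k ^ d * n) + s ∧ el (A ω) (k ^ d * n) + s < ⌊(n : ℝ) ^ Λ⌋₊ := by
    filter_upwards [hct] with ω h1
    obtain ⟨hinf, hel⟩ := el_law h1
    refine ⟨hinf, ?_⟩
    have h2 : Tendsto (fun n : ℕ => (n : ℝ) ^ (ε / 2)) atTop atTop :=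
      (tendsto_rpow_atTop (by linarith)).comp tendsto_natCast_atTop_atTop
    filter_upwards [place_le hinf hel s d hC hβ hδ0 hδ1, eventually_ge_atTop 3, h2.eventually_ge_atTop 2]
      with n h3 h4 h5 k hk1 hk2 _
    have hn0 : (0 : ℝ) < n := by exact_mod_cast (show 0 < n by omega)
    have hn1 : (1 : ℝ) ≤ n := by exact_mod_cast (show 1 ≤ n by omega)
    have hk3 : (k : ℝ) ≤ C * (n : ℝ) ^ β := (Nat.cast_le.2 hk2).trans (Nat.floor_le (by positivity))
    have h6 : 1 ≤ k ^ d * n := Nat.mul_pos (Nat.pow_pos (by omega)) (by omega)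
    have h7 := el_ge hinf h6
    refine ⟨by omega, ?_⟩
    have h8 := h3 k hk1 hk3
    have h9 : ((el (A ω) (k ^ d * n) + s : ℕ) : ℝ) ≤ (n : ℝ) ^ ((1 + d * β) + ε / 2) := by
      have h10 : (0 : ℝ) < ((el (A ω) (k ^ d * n) + s : ℕ) : ℝ) := by exact_mod_cast (by omega)
      rw [← Real.log_le_log_iff h10 (by positivity), Real.log_rpow hn0]
      refine h8.trans (mul_le_mul_of_nonneg_right hδ2 (Real.log_nonneg hn1))
    have h10 : (n : ℝ) ^ Λ = (n : ℝ) ^ ((1 + d * β) + ε / 2) * (n : ℝ) ^ (ε / 2) := by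
      rw [← Real.rpow_add hn0, hΛ]
      congr 1
      ring
    have h11 : (1 : ℝ) ≤ (n : ℝ) ^ ((1 + d * β) + ε / 2) := Real.one_le_rpow hn1 (by positivity)
    have h12 : (((el (A ω) (k ^ d * n) + s + 1 : ℕ)) : ℝ) ≤ (n : ℝ) ^ Λ := by
      rw [h10]
      push_cast at h9 ⊢
      nlinarith
    exact Nat.lt_of_succ_le (Nat.le_floor h12)
  have hmain := info_as hA hθ hΛ0 (γ := (θ * Λ + β) / 2) (by linarith) hent
    (fun n => HP (Pos s d n) ⌊C * (n : ℝ) ^ β⌋₊) (fun n a _ => dep_HP (dep_Pos s d n) _ a) (fun n => ⌊(n : ℝ) ^ Λ⌋₊) hx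
    (fun n => (n : ℝ) ^ β / Real.log n) ?_ (κ := C / (1 + d * β)) (by positivity) ?_
  · filter_upwards [hmain, hbelow] with ω h1 h2
    refine ⟨h2.1, h1.congr' ?_⟩
    filter_upwards [h2.2, eventually_ge_atTop 3] with n h3 h4
    have hn0 : (0 : ℝ) < n := by exact_mod_cast (show 0 < n by omega)
    have hL : 0 < Real.log (n : ℝ) := Real.log_pos (by exact_mod_cast (show 1 < n by omega))
    rw [hits_HP (D := fun _ => True) (e := fun k => el (A ω) (k ^ d * n) + s)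
      (fun k a hk => pos_iff h2.1 hs (by omega) hk) h3
      (fun k k' hk hk' _ _ h => place_inj h2.1 hd (by omega) hk hk' h)]
    have h5 : Ws (WP (Pos s d n)) (A ω) ⌊C * (n : ℝ) ^ β⌋₊ =
        (Icc 1 ⌊C * (n : ℝ) ^ β⌋₊).filter (fun k => el (A ω) (k ^ d * n) + s ∈ A ω) := by
      ext k
      rw [mem_Ws, mem_filter, mem_Icc]
      refine and_congr_right (fun h6 => ?_)
      unfold WP
      constructor
      · rintro ⟨a, h7, h8⟩
        have h9 := ((pos_iff h2.1 hs (show 1 ≤ n by omega) h6.1).1 h7).2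
        rw [← h9]
        exact h8
      · intro h7
        exact ⟨_, (pos_iff h2.1 hs (show 1 ≤ n by omega) h6.1).2 ⟨trivial, rfl⟩, h7⟩
    rw [h5]
    field_simp
  · filter_upwards [log_le_rpow (η := 1) one_pos (show (0 : ℝ) < (β - θ * Λ) / 2 by linarith), eventually_ge_atTop 3]
      with n h1 h2
    have hn0 : (0 : ℝ) < n := by exact_mod_cast (show 0 < n by omega)
    have hL : 0 < Real.log (n : ℝ) := Real.log_pos (by exact_mod_cast (show 1 < n by omega))
    rw [one_mul] at h1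
    rw [le_div_iff₀ hL]
    calc (n : ℝ) ^ ((θ * Λ + β) / 2) * Real.log n ≤ (n : ℝ) ^ ((θ * Λ + β) / 2) * (n : ℝ) ^ ((β - θ * Λ) / 2) := by gcongr
      _ = (n : ℝ) ^ β := by
        rw [← Real.rpow_add hn0]
        congr 1
        ring
  · filter_upwards [hct, hbelow] with ω h1 h2
    obtain ⟨hinf, hel⟩ := el_law h1
    refine (sum_pb_place hinf hel s d hC hβ).congr' ?_
    filter_upwards [h2.2, eventually_ge_atTop 3] with n h3 h4
    rw [lam_HP (D := fun _ => True) (e := fun k => el (A ω) (k ^ d * n) + s)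
      (fun k a hk => pos_iff hinf hs (by omega) hk) h3
      (fun k k' hk hk' _ _ h => place_inj hinf hd (by omega) hk hk' h)]
    congr 1
    refine sum_congr ?_ (fun _ _ => rfl)
    ext k
    simp

end Pool.Agent.Q253.IT
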