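import Pool.Agent.Q253.IT.Be

/-!
# A random set of small information for which all tests fail for infinitely many `n`
-/

set_option autoImplicit false

namespace Pool.Agent.Q253.IT

open Finset Filter MeasureTheory Pool.Agent.Q120.ET Pool.Agent.Q120.MF Pool.Agent.Q197.CI
open scoped Topology

/-- The integer `a` is tested for some `n = 2 ^ j`. -/
def Fb (s d : ℕ) (C β : ℝ) (a : ℕ) (S : Set ℕ) : Prop :=
  ∃ j k : ℕ, 1 ≤ k ∧ (k : ℝ) ≤ C * ((2 ^ j : ℕ) : ℝ) ^ β ∧ Pos s d (2 ^ j) k a S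

theorem dep_Fb (s d : ℕ) (C β : ℝ) (a : ℕ) : Dep a (Fb s d C β a) := by
  intro S S' hS
  unfold Fb
  apply propext
  constructor
  · rintro ⟨j, k, h1, h2, h3⟩
    have h4 : Pos s d (2 ^ j) k a S = Pos s d (2 ^ j) k a S' := dep_Pos s d _ k a S S' hS
    exact ⟨j, k, h1, h2, h4 ▸ h3⟩
  · rintro ⟨j, k, h1, h2, h3⟩
    have h4 : Pos s d (2 ^ j) k a S = Pos s d (2 ^ j) k a S' := dep_Pos s d _ k a S S' hS
    exact ⟨j, k, h1, h2, h4 ▸ h3⟩

open Classical in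
/-- The indices which are relevant up to `x`. -/
noncomputable def Kx (d : ℕ) (C β : ℝ) (x j : ℕ) : Finset ℕ :=
  (Icc 1 x).filter (fun k => (k : ℝ) ≤ C * ((2 ^ j : ℕ) : ℝ) ^ β ∧ k ^ d * 2 ^ j ≤ x)

open Classical in
theorem card_Fb_le (s : ℕ) {d : ℕ} (hd : 1 ≤ d) (C β : ℝ) (x : ℕ) (S : Set ℕ) :
    ((Ico 3 x).filter (fun a => Fb s d C β a S)).card ≤ ∑ j ∈ range x, (Kx d C β x j).card := by
  have h1 : (Ico 3 x).filter (fun a => Fb s d C β a S) ⊆ (range x).biUnion fun j => (Kx d C β x j).biUnion fun k =>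
      (Ico 3 x).filter (fun a => Pos s d (2 ^ j) k a S) := by
    intro a ha
    rw [mem_filter] at ha
    obtain ⟨ha1, j, k, h2, h3, h4⟩ := ha
    have h4' := h4
    obtain ⟨b, h5, h6, h7⟩ := h4'
    have h8 := isEl_ge h6
    have h9 := (mem_Ico.1 ha1).2
    have h10 : j < 2 ^ j := Nat.lt_two_pow_self
    have h11 : 1 ≤ k ^ d := Nat.pow_pos (by omega)
    have h12 : 2 ^ j ≤ k ^ d * 2 ^ j := Nat.le_mul_of_pos_left _ (by omega)
    have h13 : k ≤ k ^ d * 2 ^ j := by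
      calc k = k ^ 1 := (pow_one k).symm
        _ ≤ k ^ d := Nat.pow_le_pow_right (by omega) hd
        _ ≤ k ^ d * 2 ^ j := Nat.le_mul_of_pos_right _ (by positivity)
    refine mem_biUnion.2 ⟨j, mem_range.2 (by omega), mem_biUnion.2 ⟨k, ?_, mem_filter.2 ⟨ha1, h4⟩⟩⟩
    exact mem_filter.2 ⟨mem_Icc.2 ⟨h2, by omega⟩, h3, by omega⟩
  refine (card_le_card h1).trans (card_biUnion_le.trans (sum_le_sum fun j _ => card_biUnion_le.trans ?_))
  refine (sum_le_sum (g := fun _ => 1) fun k _ => ?_).trans (by simp)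
  rw [card_le_one]
  intro a ha a' ha'
  rw [mem_filter] at ha ha'
  obtain ⟨_, b, _, h6, h7⟩ := ha
  obtain ⟨_, b', _, h6', h7'⟩ := ha'
  rw [h7, h7', isEl_unique h6 h6']

/-- The number of the tests up to `x`. -/
theorem sum_Kx_le {d : ℕ} (hd : 1 ≤ d) {C β : ℝ} (hC : 0 < C) (hβ : 0 < β) : ∃ K : ℝ, 0 < K ∧ ∀ x : ℕ,
    ((∑ j ∈ range x, (Kx d C β x j).card : ℕ) : ℝ) ≤ K * (x : ℝ) ^ (β / (1 + d * β)) := by
  have hd0 : (0 : ℝ) < d := by exact_mod_cast hd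
  have hdβ : 0 < 1 + d * β := by positivity
  obtain ⟨r, hr⟩ : ∃ r : ℝ, r = (2 : ℝ) ^ β := ⟨_, rfl⟩
  obtain ⟨q, hq⟩ : ∃ q : ℝ, q = (2 : ℝ) ^ (-(1 / d) : ℝ) := ⟨_, rfl⟩
  have hr1 : 1 < r := by rw [hr]; exact Real.one_lt_rpow (by norm_num) hβ
  have hq0 : 0 < q := by rw [hq]; positivity
  have hq1 : q < 1 := by
    rw [hq]
    exact Real.rpow_lt_one_of_one_lt_of_neg (by norm_num) (by rw [neg_lt_zero]; positivity)
  refine ⟨C * r / (r - 1) + 1 / (1 - q), ?_, fun x => ?_⟩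
  · have h1 : 0 < r - 1 := by linarith
    have h2 : 0 < 1 - q := by linarith
    positivity
  rcases Nat.eq_zero_or_pos x with h0 | hx
  · rw [h0, range_zero, sum_empty]
    push_cast
    rw [Real.zero_rpow (by positivity)]
    simp
  have hx0 : (0 : ℝ) < x := by exact_mod_cast hx
  obtain ⟨y, hy⟩ : ∃ y : ℝ, y = (x : ℝ) ^ (1 / (1 + d * β)) := ⟨_, rfl⟩
  have hy0 : 0 < y := by rw [hy]; positivity
  have hyβ : y ^ β = (x : ℝ) ^ (β / (1 + d * β)) := by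
    rw [hy, ← Real.rpow_mul hx0.le]
    congr 1
    field_simp
  have hyd : (x : ℝ) ^ (1 / d : ℝ) * y ^ (-(1 / d) : ℝ) = (x : ℝ) ^ (β / (1 + d * β)) := by
    rw [hy, ← Real.rpow_mul hx0.le, ← Real.rpow_add hx0]
    congr 1
    field_simp
    ring
  have hex : ∃ j : ℕ, y < (2 : ℝ) ^ j := pow_unbounded_of_one_lt y (by norm_num)
  classical
  obtain ⟨j0, hj0, hmin⟩ : ∃ j0 : ℕ, y < (2 : ℝ) ^ j0 ∧ ∀ j < j0, (2 : ℝ) ^ j ≤ y :=
    ⟨Nat.find hex, Nat.find_spec hex, fun j hj => not_lt.1 (Nat.find_min hex hj)⟩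
  have hc1 : ∀ j, ((Kx d C β x j).card : ℝ) ≤ C * r ^ j := by
    intro j
    have h1 : Kx d C β x j ⊆ Icc 1 ⌊C * r ^ j⌋₊ := by
      intro k hk
      unfold Kx at hk
      rw [mem_filter, mem_Icc] at hk
      refine mem_Icc.2 ⟨hk.1.1, Nat.le_floor ?_⟩
      refine hk.2.1.trans (le_of_eq ?_)
      rw [hr]
      push_cast
      rw [← Real.rpow_natCast, ← Real.rpow_natCast, ← Real.rpow_mul (by norm_num), ← Real.rpow_mul (by norm_num), mul_comm β]
    have h2 := card_le_card h1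
    rw [Nat.card_Icc, Nat.add_sub_cancel] at h2
    exact (Nat.cast_le.2 h2).trans (Nat.floor_le (by positivity))
  have hc2 : ∀ j, ((Kx d C β x j).card : ℝ) ≤ (x : ℝ) ^ (1 / d : ℝ) * q ^ j := by
    intro j
    have h1 : Kx d C β x j ⊆ Icc 1 ⌊(x : ℝ) ^ (1 / d : ℝ) * q ^ j⌋₊ := by
      intro k hk
      unfold Kx at hk
      rw [mem_filter, mem_Icc] at hk
      refine mem_Icc.2 ⟨hk.1.1, Nat.le_floor ?_⟩
      have h3 : (k : ℝ) ^ d * (2 : ℝ) ^ j ≤ x := by exact_mod_cast hk.2.2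
      have h4 : (x : ℝ) ^ (1 / d : ℝ) * q ^ j = ((x : ℝ) / (2 : ℝ) ^ j) ^ (1 / d : ℝ) := by
        have e : q ^ j = ((2 : ℝ) ^ j) ^ (-(1 / d) : ℝ) := by
          rw [hq, ← Real.rpow_natCast, ← Real.rpow_mul (by norm_num), mul_comm, Real.rpow_mul (by norm_num),
            Real.rpow_natCast]
        rw [e, Real.rpow_neg (by positivity), ← div_eq_mul_inv, ← Real.div_rpow hx0.le (by positivity)]
      rw [h4]
      have h5 : (k : ℝ) ^ d ≤ (x : ℝ) / (2 : ℝ) ^ j := by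
        rw [le_div_iff₀ (by positivity)]
        exact h3
      have h6 := Real.rpow_le_rpow (by positivity) h5 (show 0 ≤ (1 / d : ℝ) by positivity)
      rw [← Real.rpow_natCast, ← Real.rpow_mul (by positivity), mul_one_div_cancel hd0.ne', Real.rpow_one] at h6
      exact h6
    have h2 := card_le_card h1
    rw [Nat.card_Icc, Nat.add_sub_cancel] at h2
    exact (Nat.cast_le.2 h2).trans (Nat.floor_le (by positivity))
  have hsum1 : ∑ j ∈ range j0, C * r ^ j ≤ C * r / (r - 1) * y ^ β := by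
    rw [← mul_sum, geom_sum_eq hr1.ne']
    rcases Nat.eq_zero_or_pos j0 with h1 | h1
    · rw [h1, pow_zero, sub_self, zero_div, mul_zero]
      have : 0 < r - 1 := by linarith
      positivity
    · obtain ⟨i, rfl⟩ : ∃ i, j0 = i + 1 := ⟨j0 - 1, by omega⟩
      have h2 := hmin i (by omega)
      have h3 : r ^ i ≤ y ^ β := by
        have h4 := Real.rpow_le_rpow (by positivity) h2 hβ.le
        rw [← Real.rpow_natCast, ← Real.rpow_mul (by norm_num)] at h4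
        rw [hr, ← Real.rpow_natCast, ← Real.rpow_mul (by norm_num), mul_comm β]
        exact h4
      have h4 : 0 < r - 1 := by linarith
      rw [div_mul_eq_mul_div, mul_div_assoc', div_le_div_iff_of_pos_right h4, pow_succ]
      have h5 : r ^ i * r - 1 ≤ r * y ^ β := by nlinarith
      calc C * (r ^ i * r - 1) ≤ C * (r * y ^ β) := mul_le_mul_of_nonneg_left h5 hC.le
        _ = C * r * y ^ β := by ring
  have hsum2 : ∀ m : ℕ, ∑ j ∈ Ico j0 m, (x : ℝ) ^ (1 / d : ℝ) * q ^ j ≤ 1 / (1 - q) * (x : ℝ) ^ (β / (1 + d * β)) := by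
    intro m
    rw [← mul_sum, ← hyd]
    have h1 := geom_sum_Ico_le_of_lt_one (m := j0) (n := m) hq0.le hq1
    have h2 : q ^ j0 ≤ y ^ (-(1 / d) : ℝ) := by
      rw [hq, ← Real.rpow_natCast, ← Real.rpow_mul (by norm_num), mul_comm, Real.rpow_mul (by norm_num), Real.rpow_natCast]
      exact Real.rpow_le_rpow_of_nonpos hy0 hj0.le (by rw [neg_nonpos]; positivity)
    have h3 : 0 < 1 - q := by linarith
    calc (x : ℝ) ^ (1 / d : ℝ) * ∑ j ∈ Ico j0 m, q ^ j ≤ (x : ℝ) ^ (1 / d : ℝ) * (q ^ j0 / (1 - q)) :=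
          mul_le_mul_of_nonneg_left h1 (by positivity)
      _ ≤ (x : ℝ) ^ (1 / d : ℝ) * (y ^ (-(1 / d) : ℝ) / (1 - q)) := by gcongr
      _ = 1 / (1 - q) * ((x : ℝ) ^ (1 / d : ℝ) * y ^ (-(1 / d) : ℝ)) := by ring
  push_cast
  rw [add_mul, ← hyβ]
  have hsplit : ∑ j ∈ range x, ((Kx d C β x j).card : ℝ) ≤
      ∑ j ∈ range j0, ((Kx d C β x j).card : ℝ) + ∑ j ∈ Ico j0 (max j0 x), ((Kx d C β x j).card : ℝ) := by
    rw [range_eq_Ico, range_eq_Ico, sum_Ico_consecutive _ (Nat.zero_le _) (le_max_left _ _)]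
    refine sum_le_sum_of_subset_of_nonneg (fun j hj => ?_) (fun _ _ _ => Nat.cast_nonneg _)
    rw [mem_Ico] at hj
    exact mem_Ico.2 ⟨Nat.zero_le _, lt_of_lt_of_le hj.2 (le_max_right _ _)⟩
  refine hsplit.trans (add_le_add ((sum_le_sum fun j _ => hc1 j).trans hsum1) ?_)
  rw [hyβ]
  exact (sum_le_sum fun j _ => hc2 j).trans (hsum2 _)

variable {Ω : Type*} [MeasurableSpace Ω] {μ : Measure Ω} [IsProbabilityMeasure μ] {B : Ω → Set ℕ}

theorem const_rpow_le (K : ℝ) {a b : ℝ} (hab : a < b) : ∀ᶠ x : ℕ in atTop, K * (x : ℝ) ^ a ≤ (x : ℝ) ^ b := by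
  have h1 : Tendsto (fun x : ℕ => (x : ℝ) ^ (b - a)) atTop atTop :=
    (tendsto_rpow_atTop (by linarith)).comp tendsto_natCast_atTop_atTop
  filter_upwards [h1.eventually_ge_atTop K, eventually_ge_atTop 1] with x h2 h3
  have hx0 : (0 : ℝ) < x := by exact_mod_cast h3
  have h4 : (x : ℝ) ^ b = (x : ℝ) ^ (b - a) * (x : ℝ) ^ a := by
    rw [← Real.rpow_add hx0]
    congr 1
    ring
  rw [h4]
  exact mul_le_mul_of_nonneg_right h2 (by positivity)

/-- **A random set for which all tests fail.** -/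
theorem neg_place (hB : IsCramer μ B) (s : ℕ) {d : ℕ} (hs : 1 ≤ s) (hd : 1 ≤ d) {C β : ℝ} (hC : 0 < C) (hβ : 0 < β) :
    IsRandomSet (fun ω => del (Fb s d C β) (B ω)) ∧
    (∃ K : ℝ, ∀ x : ℕ, relEntropy μ (fun ω => del (Fb s d C β) (B ω)) (Ico 3 x) ≤ K * (x : ℝ) ^ (β / (1 + d * β))) ∧
    ∀ᵐ ω ∂μ, (del (Fb s d C β) (B ω)).Infinite ∧ ∀ j k : ℕ, 1 ≤ k → (k : ℝ) ≤ C * ((2 ^ j : ℕ) : ℝ) ^ β →
      el (del (Fb s d C β) (B ω)) (k ^ d * 2 ^ j) + s ∉ del (Fb s d C β) (B ω) := by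
  classical
  have hd1 : (1 : ℝ) ≤ d := by exact_mod_cast hd
  have hdβ : 0 < 1 + d * β := by positivity
  have hrand := isRandomSet_del hB (Fb s d C β)
  obtain ⟨K, hK0, hK⟩ := sum_Kx_le hd hC hβ
  have hent : ∀ x : ℕ, relEntropy μ (fun ω => del (Fb s d C β) (B ω)) (Ico 3 x) ≤ 3 * K * (x : ℝ) ^ (β / (1 + d * β)) := by
    intro x
    rw [mul_assoc]
    refine relEntropy_del_le hB (dep_Fb s d C β) (fun S => ?_)
    refine le_trans ?_ (hK x)
    exact Nat.cast_le.2 (card_Fb_le s hd C β x S)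
  refine ⟨hrand, ⟨3 * K, hent⟩, ?_⟩
  have hθ0 : 0 ≤ β / (1 + d * β) := by positivity
  have hθ1 : β / (1 + d * β) < 1 := by
    rw [div_lt_one hdβ]
    nlinarith
  have hct := info_ct_law (μ := μ) (θ := (β / (1 + d * β) + 1) / 2) hrand (by linarith) (by linarith) ?_
  · filter_upwards [hct] with ω h1
    obtain ⟨hinf, _⟩ := el_law h1
    refine ⟨hinf, fun j k hk1 hk2 hmem => ?_⟩
    have h2 := ((mem_del_iff' (dep_Fb s d C β)).1 hmem).2.2
    refine h2 ⟨j, k, hk1, hk2, ?_⟩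
    exact (pos_iff hinf hs Nat.one_le_two_pow hk1).2 ⟨trivial, rfl⟩
  · filter_upwards [const_rpow_le (3 * K)
      (show β / (1 + d * β) < (β / (1 + d * β) + 1) / 2 by linarith)] with x h1
    exact (hent x).trans h1

end Pool.Agent.Q253.IT
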