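import Pool.Agent.Q253.IT.BeNeg
import Pool.Agent.Q197.CI.C971

/-!
# The numbers `2 k + 1` and `p_(k n) ^ r - s`, `k ≤ C n ^ β`: the law for all random sets of small information
-/

set_option autoImplicit false

namespace Pool.Agent.Q253.IT

open Finset Filter MeasureTheory Pool.Agent.Q120.ET Pool.Agent.Q120.MF Pool.Agent.Q197.CI
open scoped Topology

/-- The tested number for `n` and `k`. -/
def Qr (r s n k a : ℕ) (S : Set ℕ) : Prop := 2 * k + 1 < a ∧ 2 * k + 1 ∈ S ∧ ∃ b, b < a ∧ IsEl S (k * n) b ∧ a = b ^ r - s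

theorem dep_Qr (r s n k a : ℕ) : Dep a (Qr r s n k a) := by
  intro S S' hS
  have key : ∀ S S' : Set ℕ, (∀ j, 3 ≤ j → j < a → (j ∈ S ↔ j ∈ S')) → Qr r s n k a S → Qr r s n k a S' := by
    rintro S S' hS ⟨h1, h2, b, h3, h4, h5⟩
    have hk : 1 ≤ k := by
      have := isEl_pos h4
      by_contra hcon
      have : k = 0 := by omega
      subst this
      omega
    refine ⟨h1, (hS _ (by omega) h1).1 h2, b, h3, ?_, h5⟩
    have h6 : IsEl S (k * n) b = IsEl S' (k * n) b := dep_isEl h3 S S' hS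
    rw [← h6]
    exact h4
  exact propext ⟨key S S' hS, key S' S (fun j h1 h2 => (hS j h1 h2).symm)⟩

/-- The size of the tested number. -/
theorem size_Qr {r s m b : ℕ} (hr : 2 ≤ r) (hm : s + 2 ≤ m) (hb : m + 2 ≤ b) : m ^ r ≤ b ^ r - s ∧ b < b ^ r - s ∧ 2 * m + 1 < b ^ r - s := by
  obtain ⟨q, rfl⟩ : ∃ q, r = q + 2 := ⟨r - 2, by omega⟩
  have h1 : m ^ (q + 2) + s ≤ b ^ (q + 2) := by
    have h2 : (m + 2) ^ (q + 2) ≤ b ^ (q + 2) := Nat.pow_le_pow_left hb _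
    have h3 : m ^ (q + 1) * (m + 2) ≤ (m + 2) ^ (q + 1) * (m + 2) :=
      Nat.mul_le_mul_right _ (Nat.pow_le_pow_left (by omega) _)
    have h4 : m ≤ m ^ (q + 1) := Nat.le_self_pow (by omega) m
    have h5 : m ^ (q + 1) * (m + 2) = m ^ (q + 2) + 2 * m ^ (q + 1) := by ring
    have h6 : (m + 2) ^ (q + 1) * (m + 2) = (m + 2) ^ (q + 2) := by ring
    omega
  have h7 : b ^ 2 ≤ b ^ (q + 2) := Nat.pow_le_pow_right (by omega) (by omega)
  have h8 : b * b = b ^ 2 := by ring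
  have h9 : (m + 2) * b ≤ b * b := Nat.mul_le_mul_right _ hb
  have h10 : (m + 2) * b = m * b + 2 * b := by ring
  have h11 : 2 * b ≤ m * b := Nat.mul_le_mul_right _ (by omega)
  refine ⟨by omega, by omega, by omega⟩

theorem qr_iff {S : Set ℕ} (hS : S.Infinite) {r s n k a : ℕ} (hr : 2 ≤ r) (hn : s + 2 ≤ n) (hk : 1 ≤ k) :
    Qr r s n k a S ↔ (2 * k + 1 ∈ S ∧ a = el S (k * n) ^ r - s) := by
  have hm : n ≤ k * n := Nat.le_mul_of_pos_left n (by omega)
  have hm' : k ≤ k * n := Nat.le_mul_of_pos_right k (by omega)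
  have h2 := isEl_el hS (show 1 ≤ k * n by omega)
  obtain ⟨h3, h4, h5⟩ := size_Qr (b := el S (k * n)) hr (show s + 2 ≤ k * n by omega) (el_ge hS (by omega))
  constructor
  · rintro ⟨_, h6, b, _, h7, h8⟩
    rw [isEl_unique h7 h2] at h8
    exact ⟨h6, h8⟩
  · rintro ⟨h6, rfl⟩
    exact ⟨by omega, h6, _, h4, h2, rfl⟩

theorem qr_inj {S : Set ℕ} (hS : S.Infinite) {r s n k k' : ℕ} (hr : 2 ≤ r) (hn : s + 2 ≤ n) (hk : 1 ≤ k) (hk' : 1 ≤ k')
    (h : el S (k * n) ^ r - s = el S (k' * n) ^ r - s) : k = k' := by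
  have key : ∀ a b : ℕ, 1 ≤ a → a < b → el S (a * n) ^ r - s < el S (b * n) ^ r - s := by
    intro a b h1 h2
    have hm : n ≤ a * n := Nat.le_mul_of_pos_left n (by omega)
    have h3 : el S (a * n) < el S (b * n) :=
      el_lt_el hS (by omega) (Nat.mul_lt_mul_of_pos_right h2 (by omega))
    have h4 := Nat.pow_lt_pow_left h3 (show r ≠ 0 by omega)
    have h5 := (size_Qr (b := el S (a * n)) hr (show s + 2 ≤ a * n by omega) (el_ge hS (by omega))).2.1
    omega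
  rcases lt_trichotomy k k' with h1 | h1 | h1
  · have := key k k' hk h1
    omega
  · exact h1
  · have := key k' k hk' h1
    omega

open Classical in
/-- Sums of weights over the admissible indices up to `C n ^ β`. -/
theorem wsum3 {D : ℕ → Prop} {w : ℕ → ℕ → ℝ} {C β ρ : ℝ} (hC : 0 < C) (hβ : 0 < β) (hρ : 0 < ρ)
    (hD : Tendsto (fun h : ℕ => cD D h * Real.log h / h) atTop (𝓝 1))
    (hlow : ∀ δ : ℝ, 0 < δ → δ < 1 → ∀ᶠ n : ℕ in atTop, ∀ k : ℕ, 1 ≤ k → (k : ℝ) ≤ C * (n : ℝ) ^ β →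
      1 / ((1 + δ) * ρ * Real.log n) ≤ w n k)
    (hup : ∀ δ : ℝ, 0 < δ → δ < 1 → ∀ᶠ n : ℕ in atTop, ∀ k : ℕ, 1 ≤ k → (k : ℝ) ≤ C * (n : ℝ) ^ β →
      w n k ≤ 1 / Real.log n ∧ ((n : ℝ) ^ (β - β * δ) ≤ k → w n k ≤ 1 / ((1 - δ) * ρ * Real.log n))) :
    Tendsto (fun n : ℕ => (∑ k ∈ (Icc 1 ⌊C * (n : ℝ) ^ β⌋₊).filter D, w n k) / ((n : ℝ) ^ β / Real.log n ^ 2)) atTop
      (𝓝 (C / (β * ρ))) := by
  have hnβ : Tendsto (fun n : ℕ => (n : ℝ) ^ β) atTop atTop := (tendsto_rpow_atTop hβ).comp tendsto_natCast_atTop_atTop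
  have hN : Tendsto (fun n : ℕ => ⌊C * (n : ℝ) ^ β⌋₊) atTop atTop :=
    tendsto_nat_floor_atTop.comp (hnβ.const_mul_atTop hC)
  have hN1 : Tendsto (fun n : ℕ => (⌊C * (n : ℝ) ^ β⌋₊ : ℝ) / (C * (n : ℝ) ^ β)) atTop (𝓝 1) :=
    (tendsto_nat_floor_div_atTop (R := ℝ)).comp (hnβ.const_mul_atTop hC)
  have hN2 : Tendsto (fun n : ℕ => Real.log (⌊C * (n : ℝ) ^ β⌋₊ : ℝ) / Real.log n) atTop (𝓝 β) := by
    have h1 : Tendsto (fun n : ℕ => Real.log ((⌊C * (n : ℝ) ^ β⌋₊ : ℝ) / (C * (n : ℝ) ^ β))) atTop (𝓝 0) := by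
      have := (Real.continuousAt_log one_ne_zero).tendsto.comp hN1
      rw [Real.log_one] at this
      exact this
    have h2 := ((h1.add_const (Real.log C)).div_atTop hl).add_const β
    rw [zero_add] at h2
    refine h2.congr' ?_
    filter_upwards [hN.eventually_ge_atTop 1, hl.eventually_gt_atTop 0, eventually_ge_atTop 1] with n h3 h4 h5
    have hn0 : (0 : ℝ) < n := by exact_mod_cast h5
    have hF : (0 : ℝ) < (⌊C * (n : ℝ) ^ β⌋₊ : ℝ) := by exact_mod_cast h3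
    rw [Real.log_div hF.ne' (by positivity), Real.log_mul hC.ne' (by positivity), Real.log_rpow hn0]
    field_simp
    ring
  have hc : Tendsto (fun n : ℕ => cD D ⌊C * (n : ℝ) ^ β⌋₊ * Real.log n / (n : ℝ) ^ β) atTop (𝓝 (C / β)) := by
    have h1 := ((hD.comp hN).mul hN1).div hN2 hβ.ne'
    have h2 := h1.const_mul C
    rw [one_mul] at h2
    have h3 : C * (1 / β) = C / β := by ring
    rw [h3] at h2
    refine h2.congr' ?_
    filter_upwards [hN.eventually_ge_atTop 2, hl.eventually_gt_atTop 0, eventually_ge_atTop 1] with n h3 h4 h5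
    have hn0 : (0 : ℝ) < n := by exact_mod_cast h5
    have hF : (0 : ℝ) < (⌊C * (n : ℝ) ^ β⌋₊ : ℝ) := by exact_mod_cast (show 0 < ⌊C * (n : ℝ) ^ β⌋₊ by omega)
    have hF1 : 0 < Real.log (⌊C * (n : ℝ) ^ β⌋₊ : ℝ) := Real.log_pos (by exact_mod_cast (show 1 < ⌊C * (n : ℝ) ^ β⌋₊ by omega))
    simp only [Function.comp_apply, Pi.div_apply]
    have hpw : 0 < (n : ℝ) ^ β := by positivity
    field_simp
  have hk1 : Tendsto (fun j : ℕ => 1 / ((j : ℝ) + 2)) atTop (𝓝 0) := by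
    refine tendsto_const_nhds.div_atTop ?_
    exact tendsto_atTop_add_const_right _ _ tendsto_natCast_atTop_atTop
  have hδ : ∀ j : ℕ, 0 < 1 / ((j : ℝ) + 2) ∧ 1 / ((j : ℝ) + 2) < 1 := by
    intro j
    refine ⟨by positivity, ?_⟩
    rw [div_lt_one (by positivity)]
    have : (0 : ℝ) ≤ j := Nat.cast_nonneg _
    linarith
  have hcD : ∀ h : ℕ, cD D h = (((Icc 1 h).filter D).card : ℝ) := fun h => by unfold cD; rfl
  have hsmall : ∀ e : ℝ, 0 < e → Tendsto (fun n : ℕ => (n : ℝ) ^ (-e) * Real.log n) atTop (𝓝 0) := by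
    intro e he
    have h1 := (isLittleO_log_rpow_atTop he).tendsto_div_nhds_zero.comp tendsto_natCast_atTop_atTop
    refine h1.congr' ?_
    filter_upwards [eventually_ge_atTop 1] with n hn
    have hn0 : (0 : ℝ) < n := by exact_mod_cast hn
    simp only [Function.comp_apply]
    rw [Real.rpow_neg hn0.le]
    field_simp
  refine squeeze_family
    (fun j n => (cD D ⌊C * (n : ℝ) ^ β⌋₊ * Real.log n / (n : ℝ) ^ β) * (1 / ((1 + 1 / ((j : ℝ) + 2)) * ρ)))
    (fun j n => (n : ℝ) ^ (-(β * (1 / ((j : ℝ) + 2)))) * Real.log n +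
      (cD D ⌊C * (n : ℝ) ^ β⌋₊ * Real.log n / (n : ℝ) ^ β) * (1 / ((1 - 1 / ((j : ℝ) + 2)) * ρ)))
    (fun j => C / β * (1 / ((1 + 1 / ((j : ℝ) + 2)) * ρ)))
    (fun j => 0 + C / β * (1 / ((1 - 1 / ((j : ℝ) + 2)) * ρ))) ?_ ?_ ?_ ?_ ?_ ?_
  · have h1 : Tendsto (fun j : ℕ => C / β * (1 / ((1 + 1 / ((j : ℝ) + 2)) * ρ))) atTop
        (𝓝 (C / β * (1 / ((1 + 0) * ρ)))) := by
      refine Tendsto.const_mul _ (Tendsto.div tendsto_const_nhds ((hk1.const_add 1).mul_const _) ?_)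
      rw [add_zero, one_mul]
      exact hρ.ne'
    rw [add_zero, one_mul] at h1
    have h2 : C / β * (1 / ρ) = C / (β * ρ) := by field_simp
    rw [h2] at h1
    exact h1
  · have h1 : Tendsto (fun j : ℕ => 0 + C / β * (1 / ((1 - 1 / ((j : ℝ) + 2)) * ρ))) atTop
        (𝓝 (0 + C / β * (1 / ((1 - 0) * ρ)))) := by
      refine Tendsto.const_add _ (Tendsto.const_mul _ (Tendsto.div tendsto_const_nhds ((hk1.const_sub 1).mul_const _) ?_))
      rw [sub_zero, one_mul]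
      exact hρ.ne'
    rw [sub_zero, one_mul, zero_add] at h1
    have h2 : C / β * (1 / ρ) = C / (β * ρ) := by field_simp
    rw [h2] at h1
    exact h1
  · intro j
    exact hc.mul_const _
  · intro j
    exact (hsmall _ (mul_pos hβ (hδ j).1)).add (hc.mul_const _)
  · intro j
    obtain ⟨δ, hδe⟩ : ∃ δ : ℝ, δ = 1 / ((j : ℝ) + 2) := ⟨_, rfl⟩
    rw [← hδe]
    have hδ0 : 0 < δ := by rw [hδe]; exact (hδ j).1
    have hδ1 : δ < 1 := by rw [hδe]; exact (hδ j).2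
    filter_upwards [hlow δ hδ0 hδ1, eventually_ge_atTop 3] with n h1 h2
    have hn0 : (0 : ℝ) < n := by exact_mod_cast (show 0 < n by omega)
    have hL : 0 < Real.log (n : ℝ) := Real.log_pos (by exact_mod_cast (show 1 < n by omega))
    have hB0 : 0 < (n : ℝ) ^ β := by positivity
    rw [le_div_iff₀ (by positivity)]
    have h3 : ∀ k ∈ (Icc 1 ⌊C * (n : ℝ) ^ β⌋₊).filter D, 1 / ((1 + δ) * ρ * Real.log n) ≤ w n k := by
      intro k hk
      rw [mem_filter, mem_Icc] at hk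
      exact h1 k hk.1.1 ((Nat.cast_le.2 hk.1.2).trans (Nat.floor_le (by positivity)))
    have h4 := card_nsmul_le_sum _ _ _ h3
    rw [nsmul_eq_mul, ← hcD] at h4
    refine le_trans (le_of_eq ?_) h4
    field_simp
  · intro j
    obtain ⟨δ, hδe⟩ : ∃ δ : ℝ, δ = 1 / ((j : ℝ) + 2) := ⟨_, rfl⟩
    rw [← hδe]
    have hδ0 : 0 < δ := by rw [hδe]; exact (hδ j).1
    have hδ1 : δ < 1 := by rw [hδe]; exact (hδ j).2
    have hδ2 : 0 < 1 - δ := by linarith
    filter_upwards [hup δ hδ0 hδ1, eventually_ge_atTop 3] with n h1 h2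
    have hn0 : (0 : ℝ) < n := by exact_mod_cast (show 0 < n by omega)
    have hL : 0 < Real.log (n : ℝ) := Real.log_pos (by exact_mod_cast (show 1 < n by omega))
    have hB0 : 0 < (n : ℝ) ^ β := by positivity
    rw [div_le_iff₀ (by positivity)]
    obtain ⟨y, hy⟩ : ∃ y : ℝ, y = (n : ℝ) ^ (β - β * δ) := ⟨_, rfl⟩
    have hy0 : 0 < y := by rw [hy]; positivity
    rw [← hy] at h1
    have h3 : ∀ k ∈ (Icc 1 ⌊C * (n : ℝ) ^ β⌋₊).filter D, w n k ≤
        (if (k : ℝ) < y then 1 / Real.log n else 0) + 1 / ((1 - δ) * ρ * Real.log n) := by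
      intro k hk
      rw [mem_filter, mem_Icc] at hk
      obtain ⟨h4, h5⟩ := h1 k hk.1.1 ((Nat.cast_le.2 hk.1.2).trans (Nat.floor_le (by positivity)))
      split_ifs with h7
      · have h9 : 0 ≤ 1 / ((1 - δ) * ρ * Real.log n) := by positivity
        linarith
      · push Not at h7
        rw [zero_add]
        exact h5 h7
    refine (sum_le_sum h3).trans ?_
    rw [sum_add_distrib, sum_const, nsmul_eq_mul, ← hcD, ← sum_filter, sum_const, nsmul_eq_mul]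
    have h4 : (((((Icc 1 ⌊C * (n : ℝ) ^ β⌋₊).filter D).filter (fun k : ℕ => (k : ℝ) < y)).card : ℕ) : ℝ) ≤ y := by
      have h5 : ((Icc 1 ⌊C * (n : ℝ) ^ β⌋₊).filter D).filter (fun k : ℕ => (k : ℝ) < y) ⊆ Icc 1 ⌊y⌋₊ := by
        intro k hk
        rw [mem_filter, mem_filter, mem_Icc] at hk
        exact mem_Icc.2 ⟨hk.1.1.1, Nat.le_floor hk.2.le⟩
      have h6 := card_le_card h5
      rw [Nat.card_Icc, Nat.add_sub_cancel] at h6
      exact (Nat.cast_le.2 h6).trans (Nat.floor_le hy0.le)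
    have h6 : ((n : ℝ) ^ (-(β * δ)) * Real.log n + cD D ⌊C * (n : ℝ) ^ β⌋₊ * Real.log n / (n : ℝ) ^ β *
        (1 / ((1 - δ) * ρ))) * ((n : ℝ) ^ β / Real.log n ^ 2) =
        y * (1 / Real.log n) + cD D ⌊C * (n : ℝ) ^ β⌋₊ * (1 / ((1 - δ) * ρ * Real.log n)) := by
      have h7 : (n : ℝ) ^ (-(β * δ)) * (n : ℝ) ^ β = y := by
        rw [hy, ← Real.rpow_add hn0]
        congr 1
        ring
      rw [← h7]
      field_simp
    rw [h6]
    exact add_le_add (mul_le_mul_of_nonneg_right h4 (by positivity)) le_rfl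

end Pool.Agent.Q253.IT
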