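import Pool.Agent.Q253.IT.C9

/-!
# The numbers `2 k + 1` and `p_(k n) ^ r - s`, `k ≤ C n ^ β`: both sides of the threshold
-/

set_option autoImplicit false

namespace Pool.Agent.Q253.IT

open Finset Filter MeasureTheory Pool.Agent.Q120.ET Pool.Agent.Q120.MF Pool.Agent.Q197.CI
open scoped Topology

variable {Ω : Type*} [MeasurableSpace Ω] {μ : Measure Ω} [IsProbabilityMeasure μ] {A : Ω → Set ℕ}

/-- The number of `k ≤ h` with `2 k + 1` in the random set. -/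
theorem info_odd_law (hA : IsRandomSet A) {θ : ℝ} (hθ : 0 ≤ θ) (hθ1 : θ < 1)
    (hent : ∀ᶠ x : ℕ in atTop, relEntropy μ A (Ico 3 x) ≤ (x : ℝ) ^ θ) :
    ∀ᵐ ω ∂μ, Tendsto (fun h : ℕ => cD (fun k => 2 * k + 1 ∈ A ω) h * Real.log h / h) atTop (𝓝 1) := by
  classical
  obtain ⟨Λ, hΛ⟩ : ∃ Λ : ℝ, Λ = 1 + (1 - θ) / 2 := ⟨_, rfl⟩
  have hΛ1 : 1 < Λ := by rw [hΛ]; linarith
  have hΛθ : θ * Λ < 1 := by rw [hΛ]; nlinarith
  have hP : ∀ (S : Set ℕ) (m a : ℕ), 1 ≤ m → (P971 m a S ↔ (True ∧ a = 2 * m + 1)) := by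
    intro S m a _
    unfold P971
    simp
  have hb : ∀ h m : ℕ, 1 ≤ m → m ≤ h → True → 3 ≤ 2 * m + 1 ∧ 2 * m + 1 < 2 * h + 2 := fun h m h1 h2 _ => by omega
  have hi : ∀ m m' : ℕ, 1 ≤ m → 1 ≤ m' → True → True → 2 * m + 1 = 2 * m' + 1 → m = m' := fun m m' _ _ _ _ h => by omega
  have h1 := info_as hA hθ (Λ := Λ) (by linarith) (γ := (θ * Λ + 1) / 2) (by linarith) hent (fun n => HP P971 n)
    (fun n a _ => dep_HP (fun _ _ _ _ _ => rfl) n a) (fun n => 2 * n + 2) ?_ (fun x : ℕ => (x : ℝ) / Real.log x) ?_ one_pos ?_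
  · filter_upwards [h1] with ω h2
    refine h2.congr (fun n => ?_)
    rw [hits_HP (D := fun _ => True) (e := fun m => 2 * m + 1) (hP (A ω)) (hb n) hi]
    have h3 : cD (fun k => 2 * k + 1 ∈ A ω) n = ((Ws (WP P971) (A ω) n).card : ℝ) := by
      unfold cD Ws
      congr 2
      ext k
      rw [mem_filter, mem_filter, wp971]
    rw [h3]
    field_simp
  · have h2 : Tendsto (fun n : ℕ => (n : ℝ) ^ (Λ - 1)) atTop atTop :=
      (tendsto_rpow_atTop (by linarith)).comp tendsto_natCast_atTop_atTop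
    filter_upwards [h2.eventually_ge_atTop 4, eventually_ge_atTop 1] with n h3 h4
    have hn0 : (0 : ℝ) < n := by exact_mod_cast h4
    have hn1 : (1 : ℝ) ≤ n := by exact_mod_cast h4
    refine ⟨by omega, ?_⟩
    have h5 : (n : ℝ) ^ Λ = (n : ℝ) ^ (Λ - 1) * n := by
      nth_rw 3 [← Real.rpow_one (n : ℝ)]
      rw [← Real.rpow_add hn0]
      congr 1
      ring
    rw [h5]
    push_cast
    nlinarith
  · filter_upwards [log_le_rpow (η := 1) one_pos (show (0 : ℝ) < (1 - θ * Λ) / 2 by linarith), hl.eventually_gt_atTop 0,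
      eventually_ge_atTop 1] with n h2 h3 h4
    have hn0 : (0 : ℝ) < n := by exact_mod_cast h4
    rw [one_mul] at h2
    rw [le_div_iff₀ h3]
    calc (n : ℝ) ^ ((θ * Λ + 1) / 2) * Real.log n ≤ (n : ℝ) ^ ((θ * Λ + 1) / 2) * (n : ℝ) ^ ((1 - θ * Λ) / 2) := by gcongr
      _ = n := by
        rw [← Real.rpow_add hn0]
        nth_rw 2 [← Real.rpow_one (n : ℝ)]
        congr 1
        ring
  · refine Eventually.of_forall (fun ω => ?_)
    have h2 := sum_pb_law (t := fun m => 2 * m + 1) one_pos (log_affine 2 1 (by norm_num))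
    rw [div_one] at h2
    refine h2.congr (fun n => ?_)
    rw [lam_HP (D := fun _ => True) (e := fun m => 2 * m + 1) (hP (A ω)) (hb n) hi]
    simp only [Finset.filter_true]
    field_simp

/-- An upper bound for the tested numbers. -/
theorem place_le_r {S : Set ℕ} (hS : S.Infinite) (hel : Tendsto (fun m : ℕ => Real.log (el S m) / Real.log m) atTop (𝓝 1))
    {r : ℕ} (hr : 2 ≤ r) (s : ℕ) {C β δ : ℝ} (hC : 0 < C) (hβ : 0 < β) (hδ : 0 < δ) (hδ1 : δ ≤ 1) :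
    ∀ᶠ n : ℕ in atTop, ∀ k : ℕ, 1 ≤ k → (k : ℝ) ≤ C * (n : ℝ) ^ β →
      Real.log ((el S (k * n) ^ r - s : ℕ) : ℝ) ≤ (1 + δ) * (r * (1 + β)) * Real.log n := by
  filter_upwards [place_le hS hel 0 1 hC hβ hδ hδ1, eventually_ge_atTop (s + 2)] with n h1 h2 k hk1 hk2
  have h3 := h1 k hk1 hk2
  rw [pow_one, Nat.add_zero] at h3
  push_cast at h3
  rw [one_mul] at h3
  have hm : n ≤ k * n := Nat.le_mul_of_pos_left n (by omega)
  have h4 := (size_Qr (b := el S (k * n)) hr (show s + 2 ≤ k * n by omega) (el_ge hS (by omega))).2.1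
  have h5 : Real.log ((el S (k * n) ^ r - s : ℕ) : ℝ) ≤ r * Real.log (el S (k * n) : ℝ) := by
    rw [← Real.log_pow]
    refine Real.log_le_log (by exact_mod_cast (by omega)) ?_
    exact_mod_cast Nat.sub_le _ _
  have hr0 : (0 : ℝ) ≤ r := Nat.cast_nonneg r
  have h6 := mul_le_mul_of_nonneg_left h3 hr0
  nlinarith

open Classical in
/-- **The law of large numbers for all random sets of small information.** -/
theorem info_place_r (hA : IsRandomSet A) {r : ℕ} (hr : 2 ≤ r) (s : ℕ) {C β θ : ℝ} (hC : 0 < C) (hβ : 0 < β)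
    (hθ : 0 ≤ θ) (hθ0 : θ < β / (r * (1 + β)))
    (hent : ∀ᶠ x : ℕ in atTop, relEntropy μ A (Ico 3 x) ≤ (x : ℝ) ^ θ) :
    ∀ᵐ ω ∂μ, (A ω).Infinite ∧ Tendsto (fun n : ℕ => (((Icc 1 ⌊C * (n : ℝ) ^ β⌋₊).filter
      (fun k => 2 * k + 1 ∈ A ω ∧ el (A ω) (k * n) ^ r - s ∈ A ω)).card : ℝ) * Real.log n ^ 2 / (n : ℝ) ^ β) atTop
        (𝓝 (C / (β * (r * (1 + β))))) := by
  have hr2 : (2 : ℝ) ≤ r := by exact_mod_cast hr
  obtain ⟨ρ, hρ⟩ : ∃ ρ : ℝ, ρ = r * (1 + β) := ⟨_, rfl⟩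
  have hρ0 : 0 < ρ := by rw [hρ]; positivity
  have hρ1 : β < ρ := by rw [hρ]; nlinarith
  rw [← hρ] at hθ0 ⊢
  rw [lt_div_iff₀ hρ0] at hθ0
  have hθ1 : θ < 1 := by
    by_contra hcon
    push Not at hcon
    nlinarith
  obtain ⟨ε, hε⟩ : ∃ ε : ℝ, ε = (β - θ * ρ) / (2 * (θ + 1)) := ⟨_, rfl⟩
  have hε0 : 0 < ε := by
    rw [hε]
    have : 0 < β - θ * ρ := by linarith
    positivity
  have hε1 : ε * (2 * (θ + 1)) = β - θ * ρ := by
    rw [hε]
    field_simp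
  obtain ⟨Λ, hΛ⟩ : ∃ Λ : ℝ, Λ = ρ + ε := ⟨_, rfl⟩
  have hΛ0 : 0 < Λ := by rw [hΛ]; linarith
  have hΛβ : θ * Λ < β := by
    rw [hΛ]
    nlinarith
  obtain ⟨δ, hδ⟩ : ∃ δ : ℝ, δ = min (ε / (2 * ρ)) 1 := ⟨_, rfl⟩
  have hδ0 : 0 < δ := by rw [hδ]; exact lt_min (by positivity) one_pos
  have hδ1 : δ ≤ 1 := by rw [hδ]; exact min_le_right _ _
  have hδ2 : (1 + δ) * ρ ≤ ρ + ε / 2 := by
    have h1 : δ ≤ ε / (2 * ρ) := by rw [hδ]; exact min_le_left _ _
    rw [le_div_iff₀ (by positivity)] at h1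
    nlinarith
  have hct := info_ct_law hA hθ hθ1 hent
  have hodd := info_odd_law hA hθ hθ1 hent
  have hx : ∀ᶠ n : ℕ in atTop, 3 ≤ ⌊(n : ℝ) ^ Λ⌋₊ ∧ (⌊(n : ℝ) ^ Λ⌋₊ : ℝ) ≤ (n : ℝ) ^ Λ := by
    have h1 : Tendsto (fun n : ℕ => (n : ℝ) ^ Λ) atTop atTop := (tendsto_rpow_atTop hΛ0).comp tendsto_natCast_atTop_atTop
    filter_upwards [h1.eventually_ge_atTop 3] with n h2
    exact ⟨Nat.le_floor (by exact_mod_cast h2), Nat.floor_le (by linarith)⟩
  have hbelow : ∀ᵐ ω ∂μ, (A ω).Infinite ∧ ∀ᶠ n : ℕ in atTop, ∀ k, 1 ≤ k → k ≤ ⌊C * (n : ℝ) ^ β⌋₊ → 2 * k + 1 ∈ A ω →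
      3 ≤ el (A ω) (k * n) ^ r - s ∧ el (A ω) (k * n) ^ r - s < ⌊(n : ℝ) ^ Λ⌋₊ := by
    filter_upwards [hct] with ω h1
    obtain ⟨hinf, hel⟩ := el_law h1
    refine ⟨hinf, ?_⟩
    have h2 : Tendsto (fun n : ℕ => (n : ℝ) ^ (ε / 2)) atTop atTop :=
      (tendsto_rpow_atTop (by linarith)).comp tendsto_natCast_atTop_atTop
    filter_upwards [place_le_r hinf hel hr s hC hβ hδ0 hδ1, eventually_ge_atTop (s + 3), h2.eventually_ge_atTop 2]
      with n h3 h4 h5 k hk1 hk2 _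
    have hn0 : (0 : ℝ) < n := by exact_mod_cast (show 0 < n by omega)
    have hn1 : (1 : ℝ) ≤ n := by exact_mod_cast (show 1 ≤ n by omega)
    have hk3 : (k : ℝ) ≤ C * (n : ℝ) ^ β := (Nat.cast_le.2 hk2).trans (Nat.floor_le (by positivity))
    have hm : n ≤ k * n := Nat.le_mul_of_pos_left n (by omega)
    have h7 := el_ge hinf (show 1 ≤ k * n by omega)
    obtain ⟨_, h8', _⟩ := size_Qr (b := el (A ω) (k * n)) hr (show s + 2 ≤ k * n by omega) h7
    refine ⟨by omega, ?_⟩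
    have h8 := h3 k hk1 hk3
    rw [← hρ] at h8
    have h9 : ((el (A ω) (k * n) ^ r - s : ℕ) : ℝ) ≤ (n : ℝ) ^ (ρ + ε / 2) := by
      have h10 : (0 : ℝ) < ((el (A ω) (k * n) ^ r - s : ℕ) : ℝ) := by exact_mod_cast (by omega)
      rw [← Real.log_le_log_iff h10 (by positivity), Real.log_rpow hn0]
      refine h8.trans (mul_le_mul_of_nonneg_right hδ2 (Real.log_nonneg hn1))
    have h10 : (n : ℝ) ^ Λ = (n : ℝ) ^ (ρ + ε / 2) * (n : ℝ) ^ (ε / 2) := by
      rw [← Real.rpow_add hn0, hΛ]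
      congr 1
      ring
    have h11 : (1 : ℝ) ≤ (n : ℝ) ^ (ρ + ε / 2) := Real.one_le_rpow hn1 (by positivity)
    have h12 : (((el (A ω) (k * n) ^ r - s + 1 : ℕ)) : ℝ) ≤ (n : ℝ) ^ Λ := by
      rw [h10, Nat.cast_add, Nat.cast_one]
      nlinarith
    exact Nat.lt_of_succ_le (Nat.le_floor h12)
  have hmain := info_as hA hθ hΛ0 (γ := (θ * Λ + β) / 2) (by linarith) hent
    (fun n => HP (Qr r s n) ⌊C * (n : ℝ) ^ β⌋₊) (fun n a _ => dep_HP (dep_Qr r s n) _ a) (fun n => ⌊(n : ℝ) ^ Λ⌋₊) hx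
    (fun n => (n : ℝ) ^ β / Real.log n ^ 2) ?_ (κ := C / (β * ρ)) (by positivity) ?_
  · filter_upwards [hmain, hbelow] with ω h1 h2
    refine ⟨h2.1, h1.congr' ?_⟩
    filter_upwards [h2.2, eventually_ge_atTop (s + 3)] with n h3 h4
    have hn0 : (0 : ℝ) < n := by exact_mod_cast (show 0 < n by omega)
    have hL : 0 < Real.log (n : ℝ) := Real.log_pos (by exact_mod_cast (show 1 < n by omega))
    rw [hits_HP (D := fun k => 2 * k + 1 ∈ A ω) (e := fun k => el (A ω) (k * n) ^ r - s)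
      (fun k a hk => qr_iff h2.1 hr (by omega) hk) h3
      (fun k k' hk hk' _ _ h => qr_inj h2.1 hr (show s + 2 ≤ n by omega) hk hk' h)]
    have h5 : Ws (WP (Qr r s n)) (A ω) ⌊C * (n : ℝ) ^ β⌋₊ =
        (Icc 1 ⌊C * (n : ℝ) ^ β⌋₊).filter (fun k => 2 * k + 1 ∈ A ω ∧ el (A ω) (k * n) ^ r - s ∈ A ω) := by
      ext k
      rw [mem_Ws, mem_filter, mem_Icc]
      refine and_congr_right (fun h6 => ?_)
      unfold WP
      constructor
      · rintro ⟨a, h7, h8⟩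
        have h9 := (qr_iff h2.1 hr (show s + 2 ≤ n by omega) h6.1).1 h7
        rw [← h9.2]
        exact ⟨h9.1, h8⟩
      · intro h7
        exact ⟨_, (qr_iff h2.1 hr (show s + 2 ≤ n by omega) h6.1).2 ⟨h7.1, rfl⟩, h7.2⟩
    rw [h5]
    field_simp
  · filter_upwards [log_le_rpow (η := 1) one_pos (show (0 : ℝ) < (β - θ * Λ) / 4 by linarith), eventually_ge_atTop 3]
      with n h1 h2
    have hn0 : (0 : ℝ) < n := by exact_mod_cast (show 0 < n by omega)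
    have hL : 0 < Real.log (n : ℝ) := Real.log_pos (by exact_mod_cast (show 1 < n by omega))
    rw [one_mul] at h1
    rw [le_div_iff₀ (by positivity)]
    have h3 : Real.log (n : ℝ) ^ 2 ≤ ((n : ℝ) ^ ((β - θ * Λ) / 4)) ^ 2 := pow_le_pow_left₀ hL.le h1 2
    have h4 : ((n : ℝ) ^ ((β - θ * Λ) / 4)) ^ 2 = (n : ℝ) ^ ((β - θ * Λ) / 2) := by
      rw [← Real.rpow_natCast, ← Real.rpow_mul hn0.le]
      congr 1
      push_cast
      ring
    rw [h4] at h3
    calc (n : ℝ) ^ ((θ * Λ + β) / 2) * Real.log n ^ 2 ≤ (n : ℝ) ^ ((θ * Λ + β) / 2) * (n : ℝ) ^ ((β - θ * Λ) / 2) := by gcongr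
      _ = (n : ℝ) ^ β := by
        rw [← Real.rpow_add hn0]
        congr 1
        ring
  · filter_upwards [hct, hbelow, hodd] with ω h1 h2 hD
    obtain ⟨hinf, hel⟩ := el_law h1
    have hsum := wsum3 (D := fun k => 2 * k + 1 ∈ A ω) (w := fun n k => pb (el (A ω) (k * n) ^ r - s)) hC hβ hρ0 hD ?_ ?_
    · refine hsum.congr' ?_
      filter_upwards [h2.2, eventually_ge_atTop (s + 3)] with n h3 h4
      rw [lam_HP (D := fun k => 2 * k + 1 ∈ A ω) (e := fun k => el (A ω) (k * n) ^ r - s)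
        (fun k a hk => qr_iff hinf hr (by omega) hk) h3
        (fun k k' hk hk' _ _ h => qr_inj hinf hr (show s + 2 ≤ n by omega) hk hk' h)]
    · intro δ hδ0 hδ1
      filter_upwards [place_le_r hinf hel hr s hC hβ hδ0 hδ1.le, eventually_ge_atTop (s + 3)] with n h3 h4 k hk1 hk2
      have h5 := h3 k hk1 hk2
      rw [← hρ] at h5
      have hm : n ≤ k * n := Nat.le_mul_of_pos_left n (by omega)
      have h7 := el_ge hinf (show 1 ≤ k * n by omega)
      obtain ⟨_, h8', _⟩ := size_Qr (b := el (A ω) (k * n)) hr (show s + 2 ≤ k * n by omega) h7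
      unfold pb
      refine one_div_le_one_div_of_le (Real.log_pos ?_) h5
      exact_mod_cast (show 1 < el (A ω) (k * n) ^ r - s by omega)
    · intro δ hδ0 hδ1
      filter_upwards [eventually_ge_atTop (s + 3)] with n h4 k hk1 hk2
      have hn0 : (0 : ℝ) < n := by exact_mod_cast (show 0 < n by omega)
      have hk0 : (0 : ℝ) < k := by exact_mod_cast hk1
      have hL : 0 < Real.log (n : ℝ) := Real.log_pos (by exact_mod_cast (show 1 < n by omega))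
      have hm : n ≤ k * n := Nat.le_mul_of_pos_left n (by omega)
      have h7 := el_ge hinf (show 1 ≤ k * n by omega)
      obtain ⟨h8, _, _⟩ := size_Qr (b := el (A ω) (k * n)) hr (show s + 2 ≤ k * n by omega) h7
      have h9 : (r : ℝ) * (Real.log k + Real.log n) ≤ Real.log ((el (A ω) (k * n) ^ r - s : ℕ) : ℝ) := by
        have h10 : Real.log (((k * n) ^ r : ℕ) : ℝ) = r * (Real.log k + Real.log n) := by
          push_cast
          rw [Real.log_pow, Real.log_mul hk0.ne' hn0.ne']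
        rw [← h10]
        refine Real.log_le_log ?_ (by exact_mod_cast h8)
        have : 0 < (k * n) ^ r := Nat.pow_pos (by omega)
        exact_mod_cast this
      have hlk : 0 ≤ Real.log (k : ℝ) := Real.log_natCast_nonneg k
      unfold pb
      constructor
      · refine one_div_le_one_div_of_le hL ?_
        nlinarith
      · intro h10
        refine one_div_le_one_div_of_le ?_ ?_
        · have : 0 < 1 - δ := by linarith
          positivity
        · have h11 := Real.log_le_log (by positivity) h10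
          rw [Real.log_rpow hn0] at h11
          have h12 : (r : ℝ) * ((β - β * δ) * Real.log n + Real.log n) ≤ r * (Real.log k + Real.log n) :=
            mul_le_mul_of_nonneg_left (by linarith) (by positivity)
          refine le_trans ?_ (h12.trans h9)
          rw [hρ]
          have h13 : (1 - δ) * (r * (1 + β)) ≤ r * ((β - β * δ) + 1) := by nlinarith
          have h14 := mul_le_mul_of_nonneg_right h13 hL.le
          nlinarith

/-- The integer `a` is tested for some `n = 2 ^ j ≥ s + 2`. -/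
def Fr (r s : ℕ) (C β : ℝ) (a : ℕ) (S : Set ℕ) : Prop :=
  ∃ j k : ℕ, s + 2 ≤ 2 ^ j ∧ 1 ≤ k ∧ (k : ℝ) ≤ C * ((2 ^ j : ℕ) : ℝ) ^ β ∧ Qr r s (2 ^ j) k a S

theorem dep_Fr (r s : ℕ) (C β : ℝ) (a : ℕ) : Dep a (Fr r s C β a) := by
  intro S S' hS
  unfold Fr
  apply propext
  constructor
  · rintro ⟨j, k, h0, h1, h2, h3⟩
    have h4 : Qr r s (2 ^ j) k a S = Qr r s (2 ^ j) k a S' := dep_Qr r s _ k a S S' hS
    exact ⟨j, k, h0, h1, h2, h4 ▸ h3⟩
  · rintro ⟨j, k, h0, h1, h2, h3⟩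
    have h4 : Qr r s (2 ^ j) k a S = Qr r s (2 ^ j) k a S' := dep_Qr r s _ k a S S' hS
    exact ⟨j, k, h0, h1, h2, h4 ▸ h3⟩

open Classical in
theorem card_Fr_le {r : ℕ} (hr : 2 ≤ r) (s : ℕ) (C β : ℝ) (x : ℕ) (S : Set ℕ) :
    ((Ico 3 x).filter (fun a => Fr r s C β a S)).card ≤
      ∑ j ∈ range ⌊(x : ℝ) ^ (1 / r : ℝ)⌋₊, (Kx 1 C β ⌊(x : ℝ) ^ (1 / r : ℝ)⌋₊ j).card := by
  obtain ⟨y, hy⟩ : ∃ y : ℕ, y = ⌊(x : ℝ) ^ (1 / r : ℝ)⌋₊ := ⟨_, rfl⟩
  rw [← hy]
  have hr0 : (0 : ℝ) < r := by exact_mod_cast (show 0 < r by omega)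
  have hroot : ∀ m : ℕ, m ^ r ≤ x → m ≤ y := by
    intro m hm
    rw [hy]
    refine Nat.le_floor ?_
    have h1 : (m : ℝ) ^ r ≤ x := by exact_mod_cast hm
    have h2 := Real.rpow_le_rpow (by positivity) h1 (show 0 ≤ (1 / r : ℝ) by positivity)
    rw [← Real.rpow_natCast, ← Real.rpow_mul (by positivity), mul_one_div_cancel hr0.ne', Real.rpow_one] at h2
    exact h2
  have h1 : (Ico 3 x).filter (fun a => Fr r s C β a S) ⊆ (range y).biUnion fun j => (Kx 1 C β y j).biUnion fun k =>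
      (Ico 3 x).filter (fun a => Qr r s (2 ^ j) k a S) := by
    intro a ha
    rw [mem_filter] at ha
    obtain ⟨ha1, j, k, h0, h2, h3, h4⟩ := ha
    have h4' := h4
    obtain ⟨_, _, b, h5, h6, h7⟩ := h4'
    have hm : 2 ^ j ≤ k * 2 ^ j := Nat.le_mul_of_pos_left _ (by omega)
    have hm' : k ≤ k * 2 ^ j := Nat.le_mul_of_pos_right _ (by positivity)
    have h8 := (size_Qr (b := b) hr (show s + 2 ≤ k * 2 ^ j by omega) (isEl_ge h6)).1
    have h9 := (mem_Ico.1 ha1).2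
    have h10 : j < 2 ^ j := Nat.lt_two_pow_self
    have h11 := hroot (k * 2 ^ j) (by omega)
    refine mem_biUnion.2 ⟨j, mem_range.2 (by omega), mem_biUnion.2 ⟨k, ?_, mem_filter.2 ⟨ha1, h4⟩⟩⟩
    exact mem_filter.2 ⟨mem_Icc.2 ⟨h2, by omega⟩, h3, by rw [pow_one]; exact h11⟩
  refine (card_le_card h1).trans (card_biUnion_le.trans (sum_le_sum fun j _ => card_biUnion_le.trans ?_))
  refine (sum_le_sum (g := fun _ => 1) fun k _ => ?_).trans (by simp)
  rw [card_le_one]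
  intro a ha a' ha'
  rw [mem_filter] at ha ha'
  obtain ⟨_, _, _, b, _, h6, h7⟩ := ha
  obtain ⟨_, _, _, b', _, h6', h7'⟩ := ha'
  rw [h7, h7', isEl_unique h6 h6']

variable {B : Ω → Set ℕ}

/-- **A random set for which all tests fail.** -/
theorem neg_place_r (hB : IsCramer μ B) {r : ℕ} (hr : 2 ≤ r) (s : ℕ) {C β : ℝ} (hC : 0 < C) (hβ : 0 < β) :
    IsRandomSet (fun ω => del (Fr r s C β) (B ω)) ∧
    (∃ K : ℝ, ∀ x : ℕ, relEntropy μ (fun ω => del (Fr r s C β) (B ω)) (Ico 3 x) ≤ K * (x : ℝ) ^ (β / (r * (1 + β)))) ∧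
    ∀ᵐ ω ∂μ, (del (Fr r s C β) (B ω)).Infinite ∧ ∀ j k : ℕ, s + 2 ≤ 2 ^ j → 1 ≤ k →
      (k : ℝ) ≤ C * ((2 ^ j : ℕ) : ℝ) ^ β →
      ¬ (2 * k + 1 ∈ del (Fr r s C β) (B ω) ∧ el (del (Fr r s C β) (B ω)) (k * 2 ^ j) ^ r - s ∈ del (Fr r s C β) (B ω)) := by
  classical
  have hr2 : (2 : ℝ) ≤ r := by exact_mod_cast hr
  have hr0 : (0 : ℝ) < r := by linarith
  have hrand := isRandomSet_del hB (Fr r s C β)
  obtain ⟨K, hK0, hK⟩ := sum_Kx_le (d := 1) le_rfl hC hβ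
  rw [Nat.cast_one, one_mul] at hK
  have hent : ∀ x : ℕ, relEntropy μ (fun ω => del (Fr r s C β) (B ω)) (Ico 3 x) ≤ 3 * K * (x : ℝ) ^ (β / (r * (1 + β))) := by
    intro x
    rw [mul_assoc]
    refine relEntropy_del_le hB (dep_Fr r s C β) (fun S => ?_)
    refine le_trans (Nat.cast_le.2 (card_Fr_le hr s C β x S)) ((hK _).trans ?_)
    refine mul_le_mul_of_nonneg_left ?_ hK0.le
    have h1 : (⌊(x : ℝ) ^ (1 / r : ℝ)⌋₊ : ℝ) ≤ (x : ℝ) ^ (1 / r : ℝ) := Nat.floor_le (by positivity)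
    have h2 := Real.rpow_le_rpow (Nat.cast_nonneg _) h1 (show 0 ≤ β / (1 + β) by positivity)
    refine h2.trans (le_of_eq ?_)
    rw [← Real.rpow_mul (Nat.cast_nonneg x)]
    congr 1
    field_simp
  refine ⟨hrand, ⟨3 * K, hent⟩, ?_⟩
  have hρ : 0 < r * (1 + β) := by positivity
  have hθ0 : 0 ≤ β / (r * (1 + β)) := by positivity
  have hθ1 : β / (r * (1 + β)) < 1 := by
    rw [div_lt_one hρ]
    nlinarith
  have hct := info_ct_law (μ := μ) (θ := (β / (r * (1 + β)) + 1) / 2) hrand (by linarith) (by linarith) ?_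
  · filter_upwards [hct] with ω h1
    obtain ⟨hinf, _⟩ := el_law h1
    refine ⟨hinf, fun j k hj hk1 hk2 hmem => ?_⟩
    have h2 := ((mem_del_iff' (dep_Fr r s C β)).1 hmem.2).2.2
    refine h2 ⟨j, k, hj, hk1, hk2, ?_⟩
    exact (qr_iff hinf hr hj hk1).2 ⟨hmem.1, rfl⟩
  · filter_upwards [const_rpow_le (3 * K)
      (show β / (r * (1 + β)) < (β / (r * (1 + β)) + 1) / 2 by linarith)] with x h1
    exact (hent x).trans h1

end Pool.Agent.Q253.IT
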