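import Pool.Agent.Q253.IT.Bc

/-!
# Sequential deletion

From Cramér's random set one deletes, in increasing order, all integers which are forbidden by the elements kept so far.
The relative entropy of the result is the sum of the probabilities that `a` is forbidden, times `-log (1 - 1 / log a)`.
-/

set_option autoImplicit false

namespace Pool.Agent.Q253.IT

open Finset Filter MeasureTheory Pool.Agent.Q120.ET Pool.Agent.Q120.MF Pool.Agent.Q197.CI
open scoped Topology

open Classical in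
/-- The elements below `a` which are kept. -/
noncomputable def dl (Forb : ℕ → Set ℕ → Prop) (S : Set ℕ) : ℕ → Finset ℕ
  | 0 => ∅
  | a + 1 => if 3 ≤ a ∧ a ∈ S ∧ ¬ Forb a ((dl Forb S a : Finset ℕ) : Set ℕ) then insert a (dl Forb S a) else dl Forb S a

/-- The set of all elements which are kept. -/
def del (Forb : ℕ → Set ℕ → Prop) (S : Set ℕ) : Set ℕ := {a | a ∈ dl Forb S (a + 1)}

variable {Forb : ℕ → Set ℕ → Prop}

theorem dl_succ_of {S : Set ℕ} {a : ℕ} (h : 3 ≤ a ∧ a ∈ S ∧ ¬ Forb a ((dl Forb S a : Finset ℕ) : Set ℕ)) :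
    dl Forb S (a + 1) = insert a (dl Forb S a) := by
  rw [dl, if_pos h]

theorem dl_succ_of_not {S : Set ℕ} {a : ℕ} (h : ¬ (3 ≤ a ∧ a ∈ S ∧ ¬ Forb a ((dl Forb S a : Finset ℕ) : Set ℕ))) :
    dl Forb S (a + 1) = dl Forb S a := by
  rw [dl, if_neg h]

theorem dl_sub (S : Set ℕ) (x : ℕ) : dl Forb S x ⊆ Ico 3 x := by
  induction x with
  | zero => simp [dl]
  | succ x ih =>
    by_cases h : 3 ≤ x ∧ x ∈ S ∧ ¬ Forb x ((dl Forb S x : Finset ℕ) : Set ℕ)
    · rw [dl_succ_of h]
      intro j hj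
      rcases mem_insert.1 hj with rfl | h1
      · exact mem_Ico.2 ⟨h.1, by omega⟩
      · have := mem_Ico.1 (ih h1)
        exact mem_Ico.2 ⟨this.1, by omega⟩
    · rw [dl_succ_of_not h]
      intro j hj
      have := mem_Ico.1 (ih hj)
      exact mem_Ico.2 ⟨this.1, by omega⟩

theorem notMem_dl (S : Set ℕ) {x a : ℕ} (h : x ≤ a) : a ∉ dl Forb S x := by
  intro h1
  have := mem_Ico.1 (dl_sub S x h1)
  omega

theorem mem_dl_succ {S : Set ℕ} {a x : ℕ} (h : a + 1 ≤ x) : a ∈ dl Forb S x ↔ a ∈ dl Forb S (a + 1) := by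
  induction x, h using Nat.le_induction with
  | base => exact Iff.rfl
  | succ x hx ih =>
    refine Iff.trans ?_ ih
    by_cases h2 : 3 ≤ x ∧ x ∈ S ∧ ¬ Forb x ((dl Forb S x : Finset ℕ) : Set ℕ)
    · rw [dl_succ_of h2, mem_insert]
      constructor
      · rintro (h3 | h3)
        · omega
        · exact h3
      · exact fun h3 => Or.inr h3
    · rw [dl_succ_of_not h2]

theorem mem_dl_iff {S : Set ℕ} {x a : ℕ} (h : a < x) : a ∈ dl Forb S x ↔ a ∈ del Forb S :=
  mem_dl_succ h

theorem mem_del_iff {S : Set ℕ} {a : ℕ} : a ∈ del Forb S ↔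
    3 ≤ a ∧ a ∈ S ∧ ¬ Forb a ((dl Forb S a : Finset ℕ) : Set ℕ) := by
  unfold del
  rw [Set.mem_ofPred_eq]
  by_cases h : 3 ≤ a ∧ a ∈ S ∧ ¬ Forb a ((dl Forb S a : Finset ℕ) : Set ℕ)
  · rw [dl_succ_of h]
    exact ⟨fun _ => h, fun _ => mem_insert_self _ _⟩
  · rw [dl_succ_of_not h]
    exact ⟨fun h1 => absurd h1 (notMem_dl S le_rfl), fun h1 => absurd h1 h⟩

/-- The elements below `a` which are kept, and all elements which are kept. -/
theorem dep_dl_iff {Q : Set ℕ → Prop} {x : ℕ} (hQ : Dep x Q) (S : Set ℕ) :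
    Q ((dl Forb S x : Finset ℕ) : Set ℕ) ↔ Q (del Forb S) := by
  rw [hQ ((dl Forb S x : Finset ℕ) : Set ℕ) (del Forb S) (fun j _ hj => ?_)]
  rw [mem_coe, mem_dl_iff hj]

theorem mem_del_iff' (hF : ∀ a, Dep a (Forb a)) {S : Set ℕ} {a : ℕ} : a ∈ del Forb S ↔
    3 ≤ a ∧ a ∈ S ∧ ¬ Forb a (del Forb S) := by
  rw [mem_del_iff, dep_dl_iff (hF a)]

theorem dep_dl (Forb : ℕ → Set ℕ → Prop) (x : ℕ) : Dep x (fun S => dl Forb S x) := by
  induction x with
  | zero => intro S S' _; rfl
  | succ x ih =>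
    intro S S' hS
    have h1 : dl Forb S x = dl Forb S' x := ih S S' (fun j h3 hj => hS j h3 (by omega))
    show dl Forb S (x + 1) = dl Forb S' (x + 1)
    by_cases h3 : 3 ≤ x
    · have h2 : x ∈ S ↔ x ∈ S' := hS x h3 (by omega)
      by_cases h4 : 3 ≤ x ∧ x ∈ S ∧ ¬ Forb x ((dl Forb S x : Finset ℕ) : Set ℕ)
      · rw [dl_succ_of h4, dl_succ_of (by rw [← h2, ← h1]; exact h4), h1]
      · rw [dl_succ_of_not h4, dl_succ_of_not (by rw [← h2, ← h1]; exact h4), h1]
    · rw [dl_succ_of_not (fun h => h3 h.1), dl_succ_of_not (fun h => h3 h.1), h1]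

variable {Ω : Type*} [MeasurableSpace Ω] {μ : Measure Ω} [IsProbabilityMeasure μ] {B : Ω → Set ℕ}

theorem isRandomSet_del (hB : IsCramer μ B) (Forb : ℕ → Set ℕ → Prop) : IsRandomSet (fun ω => del Forb (B ω)) := by
  intro n
  refine measurable_dep hB (x := n + 1) (Q := fun S => n ∈ del Forb S) (fun S S' hS => ?_)
  show (n ∈ dl Forb S (n + 1)) = (n ∈ dl Forb S' (n + 1))
  have h1 : dl Forb S (n + 1) = dl Forb S' (n + 1) := dep_dl Forb (n + 1) S S' hS
  rw [h1]

theorem tr_del (x : ℕ) (ω : Ω) : tr (fun ω => del Forb (B ω)) (Ico 3 x) ω = dl Forb (B ω) x := by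
  ext n
  rw [mem_tr]
  constructor
  · rintro ⟨h1, h2⟩
    exact (mem_dl_iff (mem_Ico.1 h1).2).2 h2
  · intro h1
    have h2 := dl_sub _ _ h1
    exact ⟨h2, (mem_dl_iff (mem_Ico.1 h2).2).1 h1⟩

theorem law_del (hB : IsCramer μ B) (x : ℕ) {T : Finset ℕ} (hT : T ⊆ Ico 3 x) :
    lawOn μ (fun ω => del Forb (B ω)) (Ico 3 x) T = Pr 3 ∅ x (fun S => dl Forb S x = T) := by
  rw [lawOn, law_set_eq _ hT]
  have h1 : {ω | tr (fun ω => del Forb (B ω)) (Ico 3 x) ω = T} = {ω | dl Forb (B ω) x = T} := by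
    ext ω
    rw [Set.mem_ofPred_eq, Set.mem_ofPred_eq, tr_del]
  rw [h1]
  refine real_eq_pr hB (Q := fun S => dl Forb S x = T) (fun S S' hS => ?_)
  have h1 : dl Forb S x = dl Forb S' x := dep_dl Forb x S S' hS
  show (dl Forb S x = T) = (dl Forb S' x = T)
  rw [h1]

open Classical in
theorem law_del_succ (hB : IsCramer μ B) {x : ℕ} (hx : 3 ≤ x) {T : Finset ℕ} (hT : T ⊆ Ico 3 x) :
    lawOn μ (fun ω => del Forb (B ω)) (Ico 3 (x + 1)) T = (if Forb x (T : Set ℕ) then 1 else 1 - pb x) *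
      lawOn μ (fun ω => del Forb (B ω)) (Ico 3 x) T ∧
    lawOn μ (fun ω => del Forb (B ω)) (Ico 3 (x + 1)) (insert x T) = (if Forb x (T : Set ℕ) then 0 else pb x) *
      lawOn μ (fun ω => del Forb (B ω)) (Ico 3 x) T := by
  have hxT : x ∉ T := fun h => by have := mem_Ico.1 (hT h); omega
  have hT1 : T ⊆ Ico 3 (x + 1) := fun j hj => by
    have := mem_Ico.1 (hT hj)
    exact mem_Ico.2 ⟨this.1, by omega⟩
  have hT2 : insert x T ⊆ Ico 3 (x + 1) := fun j hj => by
    rcases mem_insert.1 hj with rfl | h1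
    · exact mem_Ico.2 ⟨hx, by omega⟩
    · exact hT1 h1
  have key : ∀ S : Set ℕ, x ∉ S → dl Forb S (x + 1) = dl Forb S x ∧
      dl Forb (insert x S) (x + 1) = if Forb x ((dl Forb S x : Finset ℕ) : Set ℕ) then dl Forb S x else insert x (dl Forb S x) := by
    intro S hS
    have h1 : dl Forb (insert x S) x = dl Forb S x := by
      refine dep_dl Forb x _ _ (fun j _ hj => ?_)
      rw [Set.mem_insert_iff]
      constructor
      · rintro (h4 | h4)
        · omega
        · exact h4
      · exact fun h4 => Or.inr h4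
    refine ⟨dl_succ_of_not (fun h => hS h.2.1), ?_⟩
    split_ifs with h2
    · rw [dl_succ_of_not, h1]
      rintro ⟨_, _, h3⟩
      rw [h1] at h3
      exact h3 h2
    · rw [dl_succ_of, h1]
      refine ⟨hx, Set.mem_insert x S, ?_⟩
      rw [h1]
      exact h2
  rw [law_del hB (x + 1) hT1, law_del hB (x + 1) hT2, law_del hB x hT, pr_def, pr_def, pr_def, ex_succ hx, ex_succ hx,
    ← ex_const_mul, ← ex_const_mul]
  constructor
  · refine ex_congr (fun U hU => ?_)
    rw [empty_union]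
    have hxU : x ∉ (U : Set ℕ) := fun h => by
      have := mem_Ico.1 (hU (mem_coe.1 h))
      omega
    obtain ⟨h1, h2⟩ := key _ hxU
    rw [h1, h2]
    have hxd : x ∉ dl Forb (U : Set ℕ) x := notMem_dl _ le_rfl
    by_cases h3 : dl Forb (U : Set ℕ) x = T
    · rw [h3]
      by_cases h4 : Forb x (T : Set ℕ)
      · simp [h4]
      · have h5 : insert x T ≠ T := fun h => hxT (h ▸ mem_insert_self x T)
        simp [h4, h5]
    · have h5 : insert x (dl Forb (U : Set ℕ) x) ≠ T := fun h => hxT (h ▸ mem_insert_self x _)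
      by_cases h4 : Forb x ((dl Forb (U : Set ℕ) x : Finset ℕ) : Set ℕ)
      · simp [h4, h3]
      · simp [h4, h5, h3]
  · refine ex_congr (fun U hU => ?_)
    rw [empty_union]
    have hxU : x ∉ (U : Set ℕ) := fun h => by
      have := mem_Ico.1 (hU (mem_coe.1 h))
      omega
    obtain ⟨h1, h2⟩ := key _ hxU
    rw [h1, h2]
    have hxd : x ∉ dl Forb (U : Set ℕ) x := notMem_dl _ le_rfl
    have h6 : dl Forb (U : Set ℕ) x ≠ insert x T := fun h => hxd (h ▸ mem_insert_self x T)
    by_cases h3 : dl Forb (U : Set ℕ) x = T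
    · rw [h3]
      rw [h3] at h6
      by_cases h4 : Forb x (T : Set ℕ)
      · simp [h4, h6]
      · simp [h4, h6]
    · have h5 : insert x (dl Forb (U : Set ℕ) x) ≠ insert x T := fun h => by
        refine h3 ?_
        ext j
        by_cases hj : j = x
        · rw [hj]
          exact ⟨fun h => absurd h hxd, fun h => absurd h hxT⟩
        · have h7 : j ∈ insert x (dl Forb (U : Set ℕ) x) ↔ j ∈ insert x T := by rw [h]
          rw [mem_insert, mem_insert] at h7
          tauto
      by_cases h4 : Forb x ((dl Forb (U : Set ℕ) x : Finset ℕ) : Set ℕ)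
      · simp [h4, h6, h3]
      · simp [h4, h5, h6, h3]

open Classical in
/-- **The chain rule.** -/
theorem relEntropy_del_succ (hB : IsCramer μ B) (hF : ∀ a, Dep a (Forb a)) {x : ℕ} (hx : 3 ≤ x) :
    relEntropy μ (fun ω => del Forb (B ω)) (Ico 3 (x + 1)) = relEntropy μ (fun ω => del Forb (B ω)) (Ico 3 x) +
      μ.real {ω | Forb x (del Forb (B ω))} * (-Real.log (1 - pb x)) := by
  have h0 : μ.real {ω | Forb x (del Forb (B ω))} =
      ∑ T ∈ (Ico 3 x).powerset, (if Forb x (T : Set ℕ) then lawOn μ (fun ω => del Forb (B ω)) (Ico 3 x) T else 0) := by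
    have h1 : {ω | Forb x (del Forb (B ω))} =
        {ω | Forb x ((tr (fun ω => del Forb (B ω)) (Ico 3 x) ω : Finset ℕ) : Set ℕ)} := by
      ext ω
      rw [Set.mem_ofPred_eq, Set.mem_ofPred_eq, tr_del, dep_dl_iff (hF x)]
    rw [h1, real_event (isRandomSet_del hB Forb) (Ico 3 x) (fun T : Finset ℕ => Forb x (T : Set ℕ)), sum_filter]
  have h1 : Ico 3 (x + 1) = insert x (Ico 3 x) := by
    ext j
    rw [mem_insert, mem_Ico, mem_Ico]
    omega
  have h2 : x ∉ Ico 3 x := by simp
  have hp0 := pb_pos hx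
  have hp1 := pb_lt_one hx
  unfold relEntropy
  rw [h0, sum_mul, ← sum_add_distrib]
  nth_rw 1 [h1]
  rw [sum_powerset_insert h2, ← sum_add_distrib]
  refine sum_congr rfl (fun T hT => ?_)
  rw [mem_powerset] at hT
  have h3 : x ∉ T := fun h => h2 (hT h)
  obtain ⟨h6, h7⟩ := law_del_succ (Forb := Forb) hB hx hT
  rw [h6, h7, h1]
  have h4 : cramerOn (insert x (Ico 3 x)) T = cramerOn (Ico 3 x) T * (1 - pb x) := by
    unfold cramerOn pb
    rw [insert_sdiff_of_notMem _ h3, prod_insert (by simp)]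
    ring
  have h5 : cramerOn (insert x (Ico 3 x)) (insert x T) = cramerOn (Ico 3 x) T * pb x := by
    unfold cramerOn pb
    rw [insert_sdiff_insert, prod_insert h3, sdiff_insert_of_notMem h2]
    ring
  rw [h4, h5]
  have hc : 0 < cramerOn (Ico 3 x) T := cramerOn_pos (fun n hn => by have := (mem_Ico.1 hn).1; omega) hT
  obtain ⟨w, hw⟩ : ∃ w : ℝ, w = lawOn μ (fun ω => del Forb (B ω)) (Ico 3 x) T := ⟨_, rfl⟩
  have hw0 : 0 ≤ w := by rw [hw]; exact measureReal_nonneg
  rw [← hw]
  by_cases h8 : Forb x (T : Set ℕ)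
  · rw [if_pos h8, if_pos h8, if_pos h8, one_mul, zero_mul, zero_mul, add_zero]
    rcases hw0.eq_or_lt with h9 | h9
    · rw [← h9]; simp
    · rw [← div_div, Real.log_div (by positivity) (by linarith)]
      ring
  · rw [if_neg h8, if_neg h8, if_neg h8, zero_mul, add_zero]
    rcases hw0.eq_or_lt with h9 | h9
    · rw [← h9]; simp
    · have e1 : (1 - pb x) * w / (cramerOn (Ico 3 x) T * (1 - pb x)) = w / cramerOn (Ico 3 x) T := by
        have : 1 - pb x ≠ 0 := by linarith
        field_simp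
      have e2 : pb x * w / (cramerOn (Ico 3 x) T * pb x) = w / cramerOn (Ico 3 x) T := by
        field_simp
      rw [e1, e2]
      ring

theorem neg_log_le {x : ℕ} (hx : 3 ≤ x) : -Real.log (1 - pb x) ≤ 3 := by
  have h1 : pb x ≤ pb 3 := by
    unfold pb
    have h2 : Real.log ((3 : ℕ) : ℝ) ≤ Real.log (x : ℝ) := Real.log_le_log (by norm_num) (by exact_mod_cast hx)
    have h3 : 0 < Real.log ((3 : ℕ) : ℝ) := Real.log_pos (by norm_num)
    exact one_div_le_one_div_of_le h3 h2
  have h2 : 1.09 ≤ Real.log ((3 : ℕ) : ℝ) := by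
    rw [Real.le_log_iff_exp_le (by norm_num)]
    have h3 : Real.exp 1.09 = Real.exp 1 * Real.exp 0.09 := by rw [← Real.exp_add]; norm_num
    have h4 : Real.exp 0.09 ≤ 1.0943 := by
      have := Real.exp_bound' (x := 0.09) (by norm_num) (by norm_num) (n := 4) (by norm_num)
      refine this.trans ?_
      norm_num [Finset.sum_range_succ, Nat.factorial]
    have h5 := Real.exp_one_lt_d9
    rw [h3]
    push_cast
    nlinarith [Real.exp_pos 1, Real.exp_pos 0.09]
  have h3 : pb 3 ≤ 0.92 := by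
    unfold pb
    rw [div_le_iff₀ (lt_of_lt_of_le (by norm_num) h2)]
    nlinarith [h2]
  have h4 : Real.exp (-3) ≤ 1 - pb x := by
    have h5 : Real.exp (-3) ≤ 0.08 := by
      rw [Real.exp_neg, inv_le_comm₀ (Real.exp_pos 3) (by norm_num)]
      have h6 : Real.exp 3 = Real.exp 1 ^ 3 := by rw [← Real.exp_nat_mul]; norm_num
      rw [h6]
      have h7 := Real.exp_one_gt_d9
      have h8 : (2.7 : ℝ) ^ 3 ≤ Real.exp 1 ^ 3 := pow_le_pow_left₀ (by norm_num) (by linarith) 3
      refine le_trans ?_ h8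
      norm_num
    linarith
  have h5 : 0 < 1 - pb x := lt_of_lt_of_le (Real.exp_pos _) h4
  have h6 := (Real.le_log_iff_exp_le h5).2 h4
  linarith

open Classical in
/-- The relative entropy is at most three times the greatest possible number of forbidden integers. -/
theorem relEntropy_del_le (hB : IsCramer μ B) (hF : ∀ a, Dep a (Forb a)) {N : ℝ} {x : ℕ}
    (hN : ∀ S : Set ℕ, (((Ico 3 x).filter (fun a => Forb a S)).card : ℝ) ≤ N) :
    relEntropy μ (fun ω => del Forb (B ω)) (Ico 3 x) ≤ 3 * N := by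
  have hchain : ∀ z : ℕ, 3 ≤ z → relEntropy μ (fun ω => del Forb (B ω)) (Ico 3 z) =
      ∑ a ∈ Ico 3 z, μ.real {ω | Forb a (del Forb (B ω))} * (-Real.log (1 - pb a)) := by
    intro z hz
    induction z, hz using Nat.le_induction with
    | base =>
      unfold relEntropy
      rw [Ico_self, powerset_empty, sum_singleton, sum_empty]
      simp [lawOn, cramerOn]
    | succ z hz ih =>
      rw [relEntropy_del_succ hB hF hz, ih, sum_Ico_succ_top hz]
  have hN0 : 0 ≤ N := (Nat.cast_nonneg _).trans (hN ∅)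
  rcases lt_or_ge x 3 with h | h
  · have h1 : Ico 3 x = ∅ := Ico_eq_empty (by omega)
    unfold relEntropy
    rw [h1, powerset_empty, sum_singleton]
    simp [lawOn, cramerOn]
    exact hN0
  · rw [hchain x h]
    have hmeas : ∀ a, MeasurableSet {ω | Forb a (del Forb (B ω))} := by
      intro a
      refine measurable_dep hB (x := a) (Q := fun S => Forb a (del Forb S)) (fun S S' hS => ?_)
      show (Forb a (del Forb S)) = (Forb a (del Forb S'))
      have h1 : dl Forb S a = dl Forb S' a := dep_dl Forb a S S' hS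
      apply propext
      rw [← dep_dl_iff (hF a), ← dep_dl_iff (hF a), h1]
    calc ∑ a ∈ Ico 3 x, μ.real {ω | Forb a (del Forb (B ω))} * (-Real.log (1 - pb a))
        ≤ ∑ a ∈ Ico 3 x, μ.real {ω | Forb a (del Forb (B ω))} * 3 := by
          refine sum_le_sum (fun a ha => ?_)
          exact mul_le_mul_of_nonneg_left (neg_log_le (mem_Ico.1 ha).1) measureReal_nonneg
      _ = 3 * ∑ a ∈ Ico 3 x, ∫ ω, ({ω | Forb a (del Forb (B ω))} : Set Ω).indicator (fun _ => (1 : ℝ)) ω ∂μ := by
          rw [← sum_mul, mul_comm]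
          congr 1
          refine sum_congr rfl (fun a _ => ?_)
          rw [integral_indicator (hmeas a), setIntegral_const]
          simp
      _ = 3 * ∫ ω, ∑ a ∈ Ico 3 x, ({ω | Forb a (del Forb (B ω))} : Set Ω).indicator (fun _ => (1 : ℝ)) ω ∂μ := by
          rw [integral_finsetSum]
          intro a _
          exact (integrable_const (1 : ℝ)).indicator (hmeas a)
      _ ≤ 3 * ∫ _, N ∂μ := by
          refine mul_le_mul_of_nonneg_left ?_ (by norm_num)
          refine integral_mono ?_ (integrable_const N) (fun ω => ?_)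
          · exact integrable_finsetSum _ (fun a _ => (integrable_const (1 : ℝ)).indicator (hmeas a))
          · refine le_trans (le_of_eq ?_) (hN (del Forb (B ω)))
            rw [card_filter]
            push_cast
            refine sum_congr rfl (fun a _ => ?_)
            simp only [Set.indicator, Set.mem_ofPred_eq]
      _ = 3 * N := by simp

end Pool.Agent.Q253.IT
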